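import Pool.Agent.TH571.PCV.Weyl

set_option autoImplicit false

/-!
The degree criterion in terms of integral lifts of the exponents at all singular points.
-/

namespace Pool.Agent.Helper104.PCD

open Finset Polynomial Pool.Agent.W432.PC Pool.Agent.TH571.PCV

universe u

/-- For all large primes `p` in the class given by `a` the `p`-curvature is nonzero at every closed
point of residue characteristic `p`. -/
def Bad {R : Type u} [CommRing R] {n r : ℕ} (α : Fin n → R) (A : Fin n → Matrix (Fin r) (Fin r) R)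
    (N : ℕ) (a : ℤ) : Prop :=
  ∃ P₀ : ℕ, ∀ p : ℕ, p.Prime → P₀ < p → (N : ℤ) ∣ a * p + 1 →
    ∀ (𝔪 : Ideal R) [𝔪.IsMaximal], (p : R) ∈ 𝔪 → ¬ PCurvZeroAt α A 𝔪

lemma emod_le {N z x a : ℤ} (hN : 0 < N) (h : N ∣ z - a) (hz : x ≤ z) : (a - x) % N ≤ z - x := by
  have h1 : (a - x) % N = (z - x) % N := by
    refine Int.ModEq.symm (Int.modEq_iff_dvd.2 ?_)
    have : a - x - (z - x) = -(z - a) := by ring
    rw [this]
    exact (dvd_neg).2 h
  rw [h1]
  have h2 := Int.emod_add_mul_ediv (z - x) N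
  have h3 : 0 ≤ (z - x) / N := Int.ediv_nonneg (by linarith) hN.le
  nlinarith

lemma le_emod {N u v : ℤ} (hN : 0 < N) (h : N ∣ v - u) (hu : u < 0) : u + N ≤ v % N := by
  have h1 : v % N = u % N := by
    refine Int.ModEq.symm (Int.modEq_iff_dvd.2 h)
  rw [h1]
  have h2 := Int.emod_add_mul_ediv u N
  have h3 := Int.emod_nonneg u hN.ne'
  have h4 : u / N < 0 := Int.ediv_neg_of_neg_of_pos hu hN
  nlinarith

/-- The degree inequality, if the class of `a` is not bad. -/
lemma crit {R : Type u} [CommRing R] [IsDomain R] [CharZero R] {n r : ℕ} (α : Fin n → R)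
    (hα : ∀ i j, i ≠ j → IsUnit (α i - α j)) (A : Fin n → Matrix (Fin r) (Fin r) R)
    (lam : Fin (n + 1) → Fin r → ℚ) (hlam : ∀ j : Fin n, HasExponents (A j) (lam j.castSucc))
    (hinf : HasExponents (∑ j, A j) (fun l => -lam (Fin.last n) l)) (N : ℕ) (hN : 0 < N)
    (e : Fin (n + 1) → Fin r → ℤ) (he : ∀ i l, (N : ℚ) * lam i l = e i l) (a : ℤ)
    (hno : ¬ Bad α A N a) (x : Fin (n + 1) → ℤ) (hx : 1 ≤ ∑ i, x i)
    (Z : Fin (n + 1) → Fin r → ℤ) (hZ : ∀ i l, (N : ℤ) ∣ Z i l - a * e i l)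
    (hxZ : ∀ i l, x i ≤ Z i l) : (r : ℤ) * N ≤ ∑ i, ∑ l, Z i l := by
  have hN0 : (0 : ℤ) < N := by exact_mod_cast hN
  have h1 := pos_of_not α hα A A (Or.inl rfl) (fun j => lam j.castSucc)
    (fun l => -lam (Fin.last n) l) hlam hinf N hN (fun j => e j.castSucc)
    (fun l => -e (Fin.last n) l) (fun j l => he _ l)
    (fun l => by push_cast; rw [mul_neg, he]) a hno (fun j => x j.castSucc)
  rw [Fin.sum_univ_castSucc] at hx ⊢
  set X : ℤ := ∑ j : Fin n, x j.castSucc with hX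
  have h2 : ∑ l, (-(Z (Fin.last n) l) - X + N) ≤ ∑ l, (a * -e (Fin.last n) l - X) % (N : ℤ) := by
    refine sum_le_sum fun l _ => le_emod hN0 ?_ ?_
    · have := hZ (Fin.last n) l
      have h3 : a * -e (Fin.last n) l - X - (-(Z (Fin.last n) l) - X) =
          Z (Fin.last n) l - a * e (Fin.last n) l := by ring
      rw [h3]
      exact this
    · have := hxZ (Fin.last n) l
      linarith
  have h3 : ∑ j : Fin n, ∑ l, (a * e j.castSucc l - x j.castSucc) % (N : ℤ) ≤
      ∑ j : Fin n, ∑ l, (Z j.castSucc l - x j.castSucc) :=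
    sum_le_sum fun j _ => sum_le_sum fun l _ => emod_le hN0 (hZ _ l) (hxZ _ l)
  have h4 := h2.trans (h1.trans h3)
  simp only [sum_add_distrib, sum_sub_distrib, sum_neg_distrib, sum_const, card_univ,
    Fintype.card_fin, nsmul_eq_mul] at h4 ⊢
  rw [← mul_sum, ← hX] at h4
  linarith

end Pool.Agent.Helper104.PCD
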