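import Mathlib

set_option autoImplicit false

/-!
Simultaneous approximation by the multiples by units.
-/

namespace Pool.Agent.Helper104.PCD

open Finset

/-- Dirichlet's theorem on simultaneous approximation. -/
lemma dirichlet (T : Finset ℚ) {q : ℕ} (hq : 0 < q) :
    ∃ u : ℕ, 0 < u ∧ u ≤ q ^ T.card ∧ ∀ θ ∈ T, ∃ m : ℤ, |(u : ℚ) * θ - m| < 1 / q := by
  classical
  have hq0 : (0 : ℚ) < q := by exact_mod_cast hq
  let f : Fin (q ^ T.card + 1) → (T → Fin q) := fun u θ =>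
    ⟨⌊(q : ℚ) * Int.fract (((u : ℕ) : ℚ) * (θ : ℚ))⌋.toNat, by
      have h1 := Int.fract_lt_one (((u : ℕ) : ℚ) * (θ : ℚ))
      have h2 : (q : ℚ) * Int.fract (((u : ℕ) : ℚ) * (θ : ℚ)) < q := by nlinarith
      have h3 : ⌊(q : ℚ) * Int.fract (((u : ℕ) : ℚ) * (θ : ℚ))⌋ < q := by
        rw [Int.floor_lt]; exact_mod_cast h2
      omega⟩
  have hcard : Fintype.card (T → Fin q) < Fintype.card (Fin (q ^ T.card + 1)) := by
    rw [Fintype.card_fun, Fintype.card_fin, Fintype.card_fin, Fintype.card_coe]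
    exact Nat.lt_succ_self _
  obtain ⟨u, v, huv, hf⟩ := Fintype.exists_ne_map_eq_of_card_lt f hcard
  wlog hlt : v < u generalizing u v
  · exact this v u huv.symm hf.symm (lt_of_le_of_ne (not_lt.mp hlt) huv)
  have hlt' : (v : ℕ) < u := hlt
  refine ⟨(u : ℕ) - v, by omega, by have := u.2; omega, fun θ hθ => ?_⟩
  have h1 := congrArg (fun g => ((g ⟨θ, hθ⟩ : Fin q) : ℕ)) hf
  simp only [f] at h1
  have hnn : ∀ w : ℕ, 0 ≤ ⌊(q : ℚ) * Int.fract ((w : ℚ) * θ)⌋ := fun w =>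
    Int.floor_nonneg.mpr (mul_nonneg hq0.le (Int.fract_nonneg _))
  have h2 : ⌊(q : ℚ) * Int.fract (((u : ℕ) : ℚ) * θ)⌋ = ⌊(q : ℚ) * Int.fract (((v : ℕ) : ℚ) * θ)⌋ := by
    have a1 := hnn u
    have a2 := hnn v
    omega
  have h3 := Int.abs_sub_lt_one_of_floor_eq_floor h2
  refine ⟨⌊((u : ℕ) : ℚ) * θ⌋ - ⌊((v : ℕ) : ℚ) * θ⌋, ?_⟩
  have h4 : (((u : ℕ) - (v : ℕ) : ℕ) : ℚ) = ((u : ℕ) : ℚ) - ((v : ℕ) : ℚ) := by
    push_cast [Nat.cast_sub hlt'.le]; ring
  rw [h4]
  have h5 : (((u : ℕ) : ℚ) - ((v : ℕ) : ℚ)) * θ -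
      ((⌊((u : ℕ) : ℚ) * θ⌋ - ⌊((v : ℕ) : ℚ) * θ⌋ : ℤ) : ℚ) =
      Int.fract (((u : ℕ) : ℚ) * θ) - Int.fract (((v : ℕ) : ℚ) * θ) := by
    rw [Int.fract, Int.fract]; push_cast; ring
  rw [h5, lt_div_iff₀ hq0]
  rw [← mul_sub, abs_mul, abs_of_pos hq0] at h3
  linarith

/-- A unit modulo `M` whose multiples of all the numbers `nu j` are close to zero, with sum zero,
except that one of them may be large and positive. -/
lemma block {J : Type*} [Fintype J] [DecidableEq J] (nu : J → ℚ) (hsum : ∃ z : ℤ, ∑ j, nu j = z)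
    (e : J) (T : Finset ℚ) (hT : ∀ j, j ≠ e → (∃ z : ℤ, nu j = z) ∨
      ∃ θ ∈ T, (∃ z : ℤ, nu j - θ = z) ∨ ∃ z : ℤ, nu j + θ = z)
    (M q : ℕ) (hq : 0 < q) (hM : ∀ p : ℕ, p.Prime → p ∣ M → q ^ T.card < p) :
    ∃ (u : ℤ) (w : J → ℚ), IsCoprime u (M : ℤ) ∧ (∀ j, ∃ z : ℤ, u * nu j - w j = z) ∧
      ∑ j, w j = 0 ∧ (∀ j, -(1 / (q : ℚ)) < w j) ∧ ∀ j, (∃ z : ℤ, nu j = z) → 0 ≤ w j := by
  classical
  have hq0 : (0 : ℚ) < q := by exact_mod_cast hq
  have hqi : (0 : ℚ) < 1 / q := by positivity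
  obtain ⟨u, hu0, hu1, hu⟩ := dirichlet T hq
  have hcop : IsCoprime (u : ℤ) (M : ℤ) := by
    rw [Nat.isCoprime_iff_coprime]
    rw [Nat.coprime_iff_gcd_eq_one]
    by_contra hne
    obtain ⟨p, hp, hpd⟩ := Nat.exists_prime_and_dvd hne
    have h1 := hM p hp (hpd.trans (Nat.gcd_dvd_right _ _))
    have h2 := Nat.le_of_dvd hu0 (hpd.trans (Nat.gcd_dvd_left _ _))
    omega
  -- the residues away from `e`
  have hw : ∀ j, ∃ w : ℚ, (j ≠ e → (∃ z : ℤ, (u : ℚ) * nu j - w = z)) ∧ |w| < 1 / q ∧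
      ((∃ z : ℤ, nu j = z) → w = 0) := by
    intro j
    by_cases hz : ∃ z : ℤ, nu j = z
    · obtain ⟨z, hz⟩ := hz
      exact ⟨0, fun _ => ⟨u * z, by rw [hz]; push_cast; ring⟩, by rw [abs_zero]; exact hqi,
        fun _ => rfl⟩
    · by_cases hj : j = e
      · exact ⟨0, fun h => absurd hj h, by rw [abs_zero]; exact hqi, fun _ => rfl⟩
      · obtain ⟨θ, hθ, h1 | h1⟩ := (hT j hj).resolve_left hz
        · obtain ⟨z, h1⟩ := h1
          obtain ⟨m, hm⟩ := hu θ hθ
          refine ⟨(u : ℚ) * θ - m, fun _ => ⟨u * z + m, ?_⟩, hm, fun h => absurd h hz⟩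
          push_cast
          linear_combination (u : ℚ) * h1
        · obtain ⟨z, h1⟩ := h1
          obtain ⟨m, hm⟩ := hu θ hθ
          refine ⟨-((u : ℚ) * θ - m), fun _ => ⟨u * z - m, ?_⟩, by rw [abs_neg]; exact hm,
            fun h => absurd h hz⟩
          push_cast
          linear_combination (u : ℚ) * h1
  choose w hw1 hw2 hw3 using hw
  set s : ℚ := ∑ j ∈ univ.erase e, w j with hs
  -- the exceptional index
  have he : ∃ z : ℤ, (u : ℚ) * nu e - (-s) = z := by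
    obtain ⟨z, hz⟩ := hsum
    have h1 : ∃ z : ℤ, ∑ j ∈ univ.erase e, ((u : ℚ) * nu j - w j) = z := by
      have h2 : ∀ j ∈ univ.erase e, ∃ z : ℤ, (u : ℚ) * nu j - w j = z := fun j hj =>
        hw1 j (ne_of_mem_erase hj)
      choose! g hg using h2
      exact ⟨∑ j ∈ univ.erase e, g j, by rw [sum_congr rfl hg]; push_cast; rfl⟩
    obtain ⟨z', hz'⟩ := h1
    refine ⟨u * z - z', ?_⟩
    rw [sum_sub_distrib, ← mul_sum, ← hs] at hz'
    rw [← add_sum_erase univ nu (mem_univ e)] at hz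
    push_cast
    linear_combination (u : ℚ) * hz - hz'
  -- the two choices of the sign
  have main : ∀ ε : ℤ, (ε = 1 ∨ ε = -1) → 0 ≤ -(ε * s : ℚ) →
      ∃ (u : ℤ) (w : J → ℚ), IsCoprime u (M : ℤ) ∧ (∀ j, ∃ z : ℤ, u * nu j - w j = z) ∧
        ∑ j, w j = 0 ∧ (∀ j, -(1 / (q : ℚ)) < w j) ∧ ∀ j, (∃ z : ℤ, nu j = z) → 0 ≤ w j := by
    intro ε hε hεs
    have habs : ∀ x : ℚ, |(ε : ℚ) * x| = |x| := by
      intro x
      rcases hε with rfl | rfl <;> simp
    refine ⟨ε * u, fun j => if j = e then -(ε * s) else ε * w j, ?_, ?_, ?_, ?_, ?_⟩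
    · rcases hε with rfl | rfl
      · rw [one_mul]; exact hcop
      · rw [neg_one_mul]; exact hcop.neg_left
    · intro j
      by_cases hj : j = e
      · subst hj
        simp only [if_true]
        obtain ⟨z, hz⟩ := he
        refine ⟨ε * z, ?_⟩
        push_cast
        linear_combination (ε : ℚ) * hz
      · simp only [if_neg hj]
        obtain ⟨z, hz⟩ := hw1 j hj
        refine ⟨ε * z, ?_⟩
        push_cast
        linear_combination (ε : ℚ) * hz
    · rw [← add_sum_erase univ _ (mem_univ e)]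
      simp only [if_true]
      rw [sum_congr rfl (g := fun j => (ε : ℚ) * w j) (fun j hj => by
        rw [if_neg (ne_of_mem_erase hj)]), ← mul_sum, ← hs]
      ring
    · intro j
      by_cases hj : j = e
      · simp only [if_pos hj]; linarith
      · simp only [if_neg hj]
        have h1 := habs (w j)
        have h2 := hw2 j
        rw [← h1] at h2
        exact (abs_lt.mp h2).1
    · intro j hz
      by_cases hj : j = e
      · simp only [if_pos hj]; exact hεs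
      · simp only [if_neg hj]
        rw [hw3 j hz, mul_zero]
  rcases le_total 0 s with h | h
  · exact main (-1) (Or.inr rfl) (by push_cast; linarith)
  · exact main 1 (Or.inl rfl) (by push_cast; linarith)

/-- Chinese remainder theorem for units, with a unit modulo a given number `N`. -/
lemma crt_units {ι : Type*} [Fintype ι] [DecidableEq ι] (M : ι → ℕ)
    (hco : ∀ k k', k ≠ k' → (M k).Coprime (M k')) (u : ι → ℤ)
    (hu : ∀ k, IsCoprime (u k) (M k : ℤ)) :
    ∃ a : ℤ, IsCoprime a ((∏ k, M k : ℕ) : ℤ) ∧ ∀ k, (M k : ℤ) ∣ a - u k := by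
  classical
  have key : ∀ s : Finset ι, ∃ a : ℤ, IsCoprime a ((∏ k ∈ s, M k : ℕ) : ℤ) ∧
      ∀ k ∈ s, (M k : ℤ) ∣ a - u k := by
    intro s
    induction s using Finset.induction_on with
    | empty => exact ⟨1, isCoprime_one_left, by simp⟩
    | insert k s hk ih =>
      obtain ⟨c, hc, hcd⟩ := ih
      have hcop : IsCoprime (M k : ℤ) ((∏ k ∈ s, M k : ℕ) : ℤ) := by
        rw [Nat.isCoprime_iff_coprime]
        exact Nat.Coprime.prod_right fun k' hk' => hco k k' (fun h => hk (h ▸ hk'))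
      obtain ⟨x, y, hxy⟩ := hcop
      set P : ℤ := ((∏ k ∈ s, M k : ℕ) : ℤ) with hP
      set A : ℤ := (M k : ℤ) with hA
      set a : ℤ := u k * (y * P) + c * (x * A) with ha
      have h1 : A ∣ a - u k := by
        refine ⟨x * (c - u k), ?_⟩
        rw [ha]
        linear_combination (u k : ℤ) * hxy
      have h2 : P ∣ a - c := by
        refine ⟨y * (u k - c), ?_⟩
        rw [ha]
        linear_combination (c : ℤ) * hxy
      have cop_of : ∀ {B c c' : ℤ}, IsCoprime c B → B ∣ c' - c → IsCoprime c' B := by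
        intro B c c' h hd
        obtain ⟨k, hk⟩ := hd
        have : c' = c + B * k := by linarith
        rw [this]
        exact IsCoprime.add_mul_left_left h k
      refine ⟨a, ?_, ?_⟩
      · rw [prod_insert hk, Nat.cast_mul]
        exact IsCoprime.mul_right (cop_of (hu k) h1) (cop_of hc h2)
      · intro k' hk'
        rcases mem_insert.mp hk' with rfl | hk'
        · exact h1
        · have h3 : (M k' : ℤ) ∣ P := by
            rw [hP]
            exact_mod_cast dvd_prod_of_mem M hk'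
          have h4 : a - u k' = (a - c) + (c - u k') := by ring
          rw [h4]
          exact dvd_add (h3.trans h2) (hcd k' hk')
  obtain ⟨a, ha, had⟩ := key univ
  exact ⟨a, ha, fun k => had k (mem_univ k)⟩

/-- Units lift. -/
lemma lift_unit {N N' : ℕ} (hN : 0 < N) (hN' : 0 < N') (a : ℤ) (ha : IsCoprime a (N : ℤ)) :
    ∃ a' : ℤ, IsCoprime a' (N' : ℤ) ∧ (N : ℤ) ∣ a' - a := by
  have : NeZero (N * N') := ⟨(Nat.mul_pos hN hN').ne'⟩
  have hcop : IsUnit ((a : ℤ) : ZMod N) := by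
    rw [ZMod.coe_int_isUnit_iff_isCoprime]
    exact ha.symm
  obtain ⟨v, hv⟩ := ZMod.unitsMap_surjective (Dvd.intro N' rfl : N ∣ N * N') hcop.unit
  refine ⟨((v : ZMod (N * N')).val : ℤ), ?_, ?_⟩
  · have h1 := Nat.isCoprime_iff_coprime.mpr (ZMod.val_coe_unit_coprime v)
    rw [Nat.cast_mul] at h1
    exact h1.of_mul_right_right
  · have h1 := congrArg (fun u : (ZMod N)ˣ => (u : ZMod N)) hv
    simp only [ZMod.unitsMap_val, IsUnit.unit_spec] at h1
    have h2 : ((((v : ZMod (N * N')).val : ℤ) - a : ℤ) : ZMod N) = 0 := by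
      push_cast
      rw [← h1, sub_eq_zero]
      rw [ZMod.natCast_val]
    exact (ZMod.intCast_zmod_eq_zero_iff_dvd _ _).mp h2

end Pool.Agent.Helper104.PCD
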