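import Pool.Agent.Helper104.PCD.Crit
import Pool.Agent.Helper104.PCD.Dirichlet

set_option autoImplicit false

/-!
The large prime factors of the denominators of the exponents split off.
-/

namespace Pool.Agent.Helper104.PCD

open Finset Polynomial Pool.Agent.W432.PC Pool.Agent.TH571.PCV

universe u

/-- A rational number whose products with two coprime integers are integers is an integer. -/
lemma int_of_coprime {a b : ℤ} (h : IsCoprime a b) {x : ℚ} (ha : ∃ z : ℤ, (a : ℚ) * x = z)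
    (hb : ∃ z : ℤ, (b : ℚ) * x = z) : ∃ z : ℤ, x = z := by
  obtain ⟨u, v, huv⟩ := h
  obtain ⟨z, hz⟩ := ha
  obtain ⟨z', hz'⟩ := hb
  refine ⟨u * z + v * z', ?_⟩
  have h1 : ((u * a + v * b : ℤ) : ℚ) = 1 := by rw [huv]; simp
  push_cast at h1 ⊢
  linear_combination (u : ℚ) * hz + (v : ℚ) * hz' - x * h1

/-- Data: the exponents `lam`, shifted by numbers `c i` with sum zero, are sums of parts `mu`, with
denominators dividing `N₀`, and `nu k`, with denominators dividing `M k`, where `N₀` and the `M k`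
are pairwise coprime.  The part `nu k` is integral outside the points in `S k`, and it takes, up to
signs and integers, only values in `T k` (except at the point `(e k).1`, for the index `(e k).2`). -/
structure Parts {n r : ℕ} (ι : Type*) [Fintype ι] (lam : Fin (n + 1) → Fin r → ℚ)
    (c : Fin (n + 1) → ℚ) (mu : Fin (n + 1) → Fin r → ℚ) (nu : ι → Fin (n + 1) → Fin r → ℚ)
    (N₀ : ℕ) (M q : ι → ℕ) (S : ι → Finset (Fin (n + 1))) (T : ι → Finset ℚ)
    (e : ι → Fin (n + 1) × Fin r) : Prop where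
  hc : ∑ i, c i = 0
  hdec : ∀ i l, lam i l = c i + mu i l + ∑ k, nu k i l
  hN₀ : 0 < N₀
  hM0 : ∀ k, 0 < M k
  hcop : ∀ k, N₀.Coprime (M k)
  hcop' : ∀ k k', k ≠ k' → (M k).Coprime (M k')
  hmu : ∀ i l, ∃ z : ℤ, (N₀ : ℚ) * mu i l = z
  hnu : ∀ k i l, ∃ z : ℤ, (M k : ℚ) * nu k i l = z
  hS : ∀ k i, i ∉ S k → ∀ l, ∃ z : ℤ, nu k i l = z
  hT : ∀ k i l, (i, l) ≠ e k → (∃ z : ℤ, nu k i l = z) ∨
    ∃ θ ∈ T k, (∃ z : ℤ, nu k i l - θ = z) ∨ ∃ z : ℤ, nu k i l + θ = z
  hq : ∀ k, 0 < q k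
  hqM : ∀ k p, p.Prime → p ∣ M k → q k ^ (T k).card < p

/-- If the class of no unit modulo `N` is bad, the `N₀`-parts of the exponents satisfy the degree
inequalities, up to a small error, for all units modulo `N₀`. -/
theorem general {R : Type u} [CommRing R] [IsDomain R] [CharZero R] {n r : ℕ} (α : Fin n → R)
    (hα : ∀ i j, i ≠ j → IsUnit (α i - α j)) (A : Fin n → Matrix (Fin r) (Fin r) R)
    (lam : Fin (n + 1) → Fin r → ℚ) (hlam : ∀ j : Fin n, HasExponents (A j) (lam j.castSucc))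
    (hinf : HasExponents (∑ j, A j) (fun l => -lam (Fin.last n) l)) {ι : Type*} [Fintype ι]
    {c : Fin (n + 1) → ℚ} {mu : Fin (n + 1) → Fin r → ℚ} {nu : ι → Fin (n + 1) → Fin r → ℚ}
    {N₀ : ℕ} {M q : ι → ℕ} {S : ι → Finset (Fin (n + 1))} {T : ι → Finset ℚ}
    {e : ι → Fin (n + 1) × Fin r} (H : Parts ι lam c mu nu N₀ M q S T e)
    (N : ℕ) (hN : 0 < N) (hNlam : ∀ i l, ∃ z : ℤ, (N : ℚ) * lam i l = z)
    (hno : ∀ a : ℤ, IsCoprime a (N : ℤ) → ¬ Bad α A N a)
    (a₀ : ℤ) (ha₀ : IsCoprime a₀ (N₀ : ℤ)) (ρ : Fin (n + 1) → Fin r → ℚ)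
    (hρ : ∀ i l, ∃ z : ℤ, a₀ * mu i l - ρ i l = z) (κ : Fin (n + 1) → ℚ)
    (hκ : ∀ i l, κ i ≤ ρ i l) (hpos : 0 < ∑ i, κ i)
    (hsum : ∑ k, ((S k).card : ℚ) / q k ≤ ∑ i, κ i) : (r : ℚ) ≤ ∑ i, ∑ l, ρ i l := by
  classical
  rcases Nat.eq_zero_or_pos r with rfl | hr
  · simp
  have : Nonempty (Fin r) := ⟨⟨0, hr⟩⟩
  choose E hE using hNlam
  -- the sums of the parts are integers
  have htr : ∑ i, ∑ l, lam i l = 0 := by
    have h1 := trace_eq (A := A) hlam hinf
    rw [Fin.sum_univ_castSucc, h1]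
    simp
  have hsumnu : ∀ k, ∃ z : ℤ, ∑ i, ∑ l, nu k i l = z := by
    intro k
    have h0 : ∑ i, ∑ l, mu i l + ∑ k, ∑ i, ∑ l, nu k i l = 0 := by
      have h1 : ∑ i, ∑ l, lam i l = (r : ℚ) * ∑ i, c i + (∑ i, ∑ l, mu i l +
          ∑ k, ∑ i, ∑ l, nu k i l) := by
        simp only [H.hdec, sum_add_distrib, sum_const, card_univ, Fintype.card_fin, nsmul_eq_mul,
          mul_sum]
        rw [add_assoc]
        congr 2
        have h2 : ∑ k, ∑ i, ∑ l, nu k i l = ∑ i, ∑ k, ∑ l, nu k i l := sum_comm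
        rw [h2]
        exact sum_congr rfl fun i _ => sum_comm
      rw [htr, H.hc, mul_zero, zero_add] at h1
      exact h1.symm
    have hMs : ∀ k, ∃ z : ℤ, (M k : ℚ) * ∑ i, ∑ l, nu k i l = z := by
      intro k
      choose g hg using H.hnu k
      refine ⟨∑ i, ∑ l, g i l, ?_⟩
      push_cast
      rw [mul_sum]
      refine sum_congr rfl fun i _ => ?_
      rw [mul_sum]
      exact sum_congr rfl fun l _ => hg i l
    have hN₀s : ∃ z : ℤ, (N₀ : ℚ) * ∑ i, ∑ l, mu i l = z := by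
      choose g hg using H.hmu
      refine ⟨∑ i, ∑ l, g i l, ?_⟩
      push_cast
      rw [mul_sum]
      refine sum_congr rfl fun i _ => ?_
      rw [mul_sum]
      exact sum_congr rfl fun l _ => hg i l
    have hcopr : IsCoprime (M k : ℤ) ((N₀ * ∏ k' ∈ univ.erase k, M k' : ℕ) : ℤ) := by
      rw [Nat.isCoprime_iff_coprime]
      refine Nat.Coprime.mul_right (H.hcop k).symm ?_
      exact Nat.Coprime.prod_right fun k' hk' => H.hcop' k k' (ne_of_mem_erase hk').symm
    refine int_of_coprime hcopr (by exact_mod_cast hMs k) ?_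
    obtain ⟨z₀, hz₀⟩ := hN₀s
    choose g hg using hMs
    have h1 : ∑ i, ∑ l, nu k i l = -(∑ i, ∑ l, mu i l) -
        ∑ k' ∈ univ.erase k, ∑ i, ∑ l, nu k' i l := by
      rw [← add_sum_erase univ _ (mem_univ k)] at h0
      linarith
    have h2 : ∀ k' ∈ univ.erase k, ∃ z : ℤ, ((∏ k' ∈ univ.erase k, M k' : ℕ) : ℚ) *
        ∑ i, ∑ l, nu k' i l = z := by
      intro k' hk'
      obtain ⟨d, hd⟩ := dvd_prod_of_mem M hk'
      refine ⟨d * g k', ?_⟩
      rw [hd]
      push_cast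
      rw [mul_comm ((M k' : ℕ) : ℚ) d, mul_assoc, hg]
    choose! g' hg' using h2
    refine ⟨-(∏ k' ∈ univ.erase k, M k' : ℕ) * z₀ - N₀ * ∑ k' ∈ univ.erase k, g' k', ?_⟩
    rw [h1]
    push_cast
    rw [← hz₀]
    have h3 : ∑ k' ∈ univ.erase k, ((g' k' : ℤ) : ℚ) = ((∏ k' ∈ univ.erase k, M k' : ℕ) : ℚ) *
        ∑ k' ∈ univ.erase k, ∑ i, ∑ l, nu k' i l := by
      rw [mul_sum]
      exact sum_congr rfl fun k' hk' => (hg' k' hk').symm
    rw [h3]
    push_cast
    ring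
  -- the blocks
  have hblk := fun k => block (J := Fin (n + 1) × Fin r) (fun j => nu k j.1 j.2)
    (by
      obtain ⟨z, hz⟩ := hsumnu k
      refine ⟨z, ?_⟩
      rw [Fintype.sum_prod_type]
      exact hz) (e k) (T k)
    (fun j hj => H.hT k j.1 j.2 hj) (M k) (q k) (H.hq k) (H.hqM k)
  choose u w hu1 hu2 hu3 hu4 hu5 using hblk
  -- the unit
  obtain ⟨a₁, ha₁, ha₁d⟩ := crt_units (ι := Option ι)
    (fun k => k.elim N₀ M) (by
      rintro (_ | k) (_ | k') h
      · exact absurd rfl h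
      · exact H.hcop k'
      · exact (H.hcop k).symm
      · exact H.hcop' k k' (fun h' => h (by rw [h']))) (fun k => k.elim a₀ u) (by
      rintro (_ | k)
      · exact ha₀
      · exact hu1 k)
  obtain ⟨a, ha, had⟩ := lift_unit (N := ∏ k : Option ι, (k.elim N₀ M : ℕ)) (N' := N) (by
    refine Finset.prod_pos fun k _ => ?_
    rcases k with _ | k
    · exact H.hN₀
    · exact H.hM0 k) hN a₁ ha₁
  have hdvd : ∀ k : Option ι, ((k.elim N₀ M : ℕ) : ℤ) ∣ a - k.elim a₀ u := by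
    intro k
    have h1 : ((k.elim N₀ M : ℕ) : ℤ) ∣ ((∏ k : Option ι, (k.elim N₀ M : ℕ) : ℕ) : ℤ) := by
      exact_mod_cast dvd_prod_of_mem (fun k : Option ι => (k.elim N₀ M : ℕ)) (mem_univ k)
    have h2 : a - k.elim a₀ u = (a - a₁) + (a₁ - k.elim a₀ u) := by ring
    rw [h2]
    exact dvd_add (h1.trans had) (ha₁d k)
  -- the lifts
  let z : Fin (n + 1) → Fin r → ℚ := fun i l => a * c i + ρ i l + ∑ k, w k (i, l)
  have hz : ∀ i l, ∃ m : ℤ, a * lam i l - z i l = m := by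
    intro i l
    obtain ⟨m₁, hm₁⟩ := hρ i l
    obtain ⟨t, ht⟩ := hdvd none
    obtain ⟨m₂, hm₂⟩ := H.hmu i l
    choose m₃ hm₃ using fun k => hu2 k (i, l)
    choose t' ht' using fun k => hdvd (some k)
    choose m₄ hm₄ using fun k => H.hnu k i l
    refine ⟨m₁ + t * m₂ + ∑ k, (m₃ k + t' k * m₄ k), ?_⟩
    simp only [Option.elim] at ht ht'
    have h1 : ∀ k, (a : ℚ) * nu k i l - w k (i, l) = ((m₃ k + t' k * m₄ k : ℤ) : ℚ) := by
      intro k
      have h2 : (a : ℚ) = u k + M k * t' k := by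
        have := congrArg (fun x : ℤ => (x : ℚ)) (ht' k)
        push_cast at this
        linarith
      push_cast
      rw [← hm₃ k, ← hm₄ k, h2]
      ring
    have h2 : (a : ℚ) = a₀ + N₀ * t := by
      have := congrArg (fun x : ℤ => (x : ℚ)) ht
      push_cast at this
      linarith
    have h3 : ((∑ k, (m₃ k + t' k * m₄ k) : ℤ) : ℚ) = a * ∑ k, nu k i l - ∑ k, w k (i, l) := by
      push_cast [mul_sum]
      rw [← sum_sub_distrib]
      refine sum_congr rfl fun k _ => ?_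
      rw [h1 k]
      push_cast
      rfl
    simp only [z]
    rw [Int.cast_add, h3, H.hdec]
    push_cast
    rw [← hm₁, ← hm₂]
    linear_combination (mu i l) * h2
  choose m hm using hz
  let Z : Fin (n + 1) → Fin r → ℤ := fun i l => a * E i l - N * m i l
  have hNq : (0 : ℚ) < N := by exact_mod_cast hN
  have hZz : ∀ i l, ((Z i l : ℤ) : ℚ) = N * z i l := by
    intro i l
    simp only [Z]
    push_cast
    rw [← hE, ← hm]
    ring
  choose l₀ hl₀ using fun i => Finite.exists_min (Z i)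
  have hcrit := crit α hα A lam hlam hinf N hN E hE a (hno a ha) (fun i => Z i (l₀ i)) ?_ Z
    (fun i l => ⟨-m i l, by simp only [Z]; ring⟩) (fun i l => hl₀ i l)
  · -- the sum
    have h1 : ((∑ i, ∑ l, Z i l : ℤ) : ℚ) = N * ∑ i, ∑ l, ρ i l := by
      push_cast
      simp only [hZz, z, ← mul_sum]
      congr 1
      simp only [sum_add_distrib, sum_const, card_univ, Fintype.card_fin, nsmul_eq_mul, ← mul_sum,
        H.hc, mul_zero, zero_add]
      have h2 : ∑ i, ∑ l, ∑ k, w k (i, l) = 0 := by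
        have h3 : ∀ i, ∑ l, ∑ k, w k (i, l) = ∑ k, ∑ l, w k (i, l) := fun i => sum_comm
        simp only [h3]
        rw [sum_comm]
        refine sum_eq_zero fun k _ => ?_
        have h4 := hu3 k
        rw [Fintype.sum_prod_type] at h4
        exact h4
      rw [h2, add_zero]
    have h2 : ((r * N : ℤ) : ℚ) ≤ ((∑ i, ∑ l, Z i l : ℤ) : ℚ) := by exact_mod_cast hcrit
    rw [h1] at h2
    push_cast at h2
    rw [mul_comm] at h2
    exact le_of_mul_le_mul_left h2 hNq
  · -- the lower bounds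
    have h1 : ((∑ i, Z i (l₀ i) : ℤ) : ℚ) = N * (∑ i, ρ i (l₀ i) + ∑ k, ∑ i, w k (i, l₀ i)) := by
      push_cast
      simp only [hZz, z, ← mul_sum]
      congr 1
      simp only [sum_add_distrib, ← mul_sum, H.hc, mul_zero, zero_add]
      congr 1
      exact sum_comm
    have h2 : ∀ k, -((S k).card : ℚ) / q k ≤ ∑ i, w k (i, l₀ i) ∧
        ((S k).Nonempty → -((S k).card : ℚ) / q k < ∑ i, w k (i, l₀ i)) := by
      intro k
      have h3 : 0 ≤ ∑ i ∈ (S k)ᶜ, w k (i, l₀ i) :=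
        sum_nonneg fun i hi => hu5 k _ (H.hS k i (mem_compl.mp hi) _)
      have h4 : ∑ i, w k (i, l₀ i) = ∑ i ∈ S k, w k (i, l₀ i) + ∑ i ∈ (S k)ᶜ, w k (i, l₀ i) :=
        (sum_add_sum_compl _ _).symm
      have h5 : -((S k).card : ℚ) / q k = ∑ _i ∈ S k, -(1 / (q k : ℚ)) := by
        rw [sum_const, nsmul_eq_mul]; ring
      refine ⟨?_, fun hne => ?_⟩
      · rw [h4, h5]
        have := sum_le_sum (s := S k) fun i _ => (hu4 k (i, l₀ i)).le
        linarith
      · rw [h4, h5]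
        have := sum_lt_sum_of_nonempty hne fun i _ => hu4 k (i, l₀ i)
        linarith
    have h3 : ∑ i, κ i ≤ ∑ i, ρ i (l₀ i) := sum_le_sum fun i _ => hκ i _
    have h4 : -(∑ k, ((S k).card : ℚ) / q k) ≤ ∑ k, ∑ i, w k (i, l₀ i) := by
      rw [← sum_neg_distrib]
      refine sum_le_sum fun k _ => ?_
      rw [← neg_div]
      exact (h2 k).1
    have h5 : 0 < ∑ i, ρ i (l₀ i) + ∑ k, ∑ i, w k (i, l₀ i) := by
      by_cases hex : ∃ k, (S k).Nonempty
      · obtain ⟨k₁, hk₁⟩ := hex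
        have h6 : -(∑ k, ((S k).card : ℚ) / q k) < ∑ k, ∑ i, w k (i, l₀ i) := by
          rw [← sum_neg_distrib]
          refine sum_lt_sum (fun k _ => ?_) ⟨k₁, mem_univ _, ?_⟩
          · rw [← neg_div]
            exact (h2 k).1
          · rw [← neg_div]
            exact (h2 k₁).2 hk₁
        linarith
      · push Not at hex
        have h6 : 0 ≤ ∑ k, ∑ i, w k (i, l₀ i) := by
          refine sum_nonneg fun k _ => ?_
          have := (h2 k).1
          rw [hex k] at this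
          simpa using this
        linarith
    have h6 : (0 : ℚ) < ((∑ i, Z i (l₀ i) : ℤ) : ℚ) := by
      rw [h1]
      exact mul_pos hNq h5
    have h7 : 0 < ∑ i, Z i (l₀ i) := by exact_mod_cast h6
    exact h7

end Pool.Agent.Helper104.PCD
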