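import Pool.Agent.Helper104.PCD.General

set_option autoImplicit false

/-!
Denominators occurring at one singular point only.
-/

namespace Pool.Agent.Helper104.PCD

open Finset Polynomial Pool.Agent.W432.PC

universe u

/-- A unit moves a fraction to any fraction with the same denominator. -/
lemma exists_unit_mul {N₀ : ℕ} (hN₀ : 0 < N₀) {x : ℚ} {b : ℕ}
    (hb : b.Coprime x.den) : ∃ a : ℤ, IsCoprime a (N₀ : ℤ) ∧ ∃ z : ℤ, a * x - (b : ℚ) / x.den = z := by
  have hm : (0 : ℚ) < x.den := by exact_mod_cast x.den_pos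
  have hcop : IsCoprime (x.num : ℤ) (x.den : ℤ) := by
    rw [Int.isCoprime_iff_gcd_eq_one]
    exact x.reduced
  obtain ⟨v, w, hvw⟩ := hcop
  have h1 : IsCoprime ((b : ℤ) * v) (x.den : ℤ) := by
    refine IsCoprime.mul_left ?_ ?_
    · rw [Nat.isCoprime_iff_coprime]; exact hb
    · exact ⟨x.num, w, by linarith⟩
  obtain ⟨a, ha, t, ht⟩ := lift_unit (N := x.den) (N' := N₀) x.den_pos hN₀ _ h1
  refine ⟨a, ha, t * x.num - b * w, ?_⟩
  have h2 : (a : ℚ) = b * v + x.den * t := by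
    have := congrArg (fun y : ℤ => (y : ℚ)) ht
    push_cast at this
    linarith
  have h3 : x = x.num / x.den := (Rat.num_div_den x).symm
  have h4 : (v : ℚ) * x.num + w * x.den = 1 := by exact_mod_cast hvw
  have h5 : (a : ℚ) * x * x.den = a * x.num := by
    rw [mul_assoc]
    congr 1
    rw [mul_comm]
    exact Rat.den_mul_eq_num x
  have h6 : (a * x - (b : ℚ) / x.den) * x.den = (t * x.num - b * w) * x.den := by
    rw [sub_mul, div_mul_cancel₀ _ hm.ne', h5, h2]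
    linear_combination (b : ℚ) * h4
  push_cast
  exact mul_right_cancel₀ hm.ne' h6

/-- Every `m > 1` has a unit between `m / 6` and `m / 2`. -/
lemma exists_coprime_mid {m : ℕ} (hm : 1 < m) : ∃ b : ℕ, 0 < b ∧ b.Coprime m ∧ 2 * b ≤ m ∧ m ≤ 6 * b := by
  rcases Nat.even_or_odd m with ⟨k, hk⟩ | ⟨k, hk⟩
  · rcases Nat.even_or_odd k with ⟨j, hj⟩ | ⟨j, hj⟩
    · -- `m = 4 j`
      refine ⟨2 * j - 1, by omega, ?_, by omega, by omega⟩
      have h1 : IsCoprime ((2 * j - 1 : ℕ) : ℤ) (m : ℤ) := by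
        have h2 : ((2 * j - 1 : ℕ) : ℤ) = 2 * j - 1 := by omega
        have h3 : (m : ℤ) = 4 * j := by omega
        rw [h2, h3]
        exact ⟨-(2 * j + 1), j, by ring⟩
      exact Nat.isCoprime_iff_coprime.mp h1
    · -- `m = 4 j + 2`
      rcases Nat.eq_zero_or_pos j with rfl | hj0
      · refine ⟨1, one_pos, Nat.coprime_one_left m, by omega, by omega⟩
      · refine ⟨2 * j - 1, by omega, ?_, by omega, by omega⟩
        have h1 : IsCoprime ((2 * j - 1 : ℕ) : ℤ) (m : ℤ) := by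
          have h2 : ((2 * j - 1 : ℕ) : ℤ) = 2 * j - 1 := by omega
          have h3 : (m : ℤ) = 4 * j + 2 := by omega
          rw [h2, h3]
          rcases Int.even_or_odd (j : ℤ) with ⟨i, hi⟩ | ⟨i, hi⟩
          · exact ⟨-(1 + 2 * i), i, by rw [hi]; ring⟩
          · exact ⟨1 + 2 * i, -i, by rw [hi]; ring⟩
        exact Nat.isCoprime_iff_coprime.mp h1
  · -- `m = 2 k + 1`
    refine ⟨k, by omega, ?_, by omega, by omega⟩
    have h1 : IsCoprime ((k : ℕ) : ℤ) (m : ℤ) := by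
      have h3 : (m : ℤ) = 2 * k + 1 := by omega
      rw [h3]
      exact ⟨-2, 1, by ring⟩
    exact Nat.isCoprime_iff_coprime.mp h1

/-- The representatives in `[t, t + 1)` of the numbers `x l` and of the numbers `-x l`. -/
lemma exists_reps {r : ℕ} (x : Fin r → ℚ) (l₀ : Fin r) {t : ℚ} (ht : 0 < t) (ht2 : 2 * t ≤ 1)
    (hl₀ : ∃ z : ℤ, x l₀ - t = z) : ∃ ε : ℤ, (ε = 1 ∨ ε = -1) ∧ ∃ ρ : Fin r → ℚ,
      (∀ l, ∃ z : ℤ, ε * x l - ρ l = z) ∧ (∀ l, t ≤ ρ l) ∧ ∑ l, ρ l < r := by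
  classical
  let ρ : ℚ → ℚ := fun y => if t ≤ Int.fract y then Int.fract y else Int.fract y + 1
  have h1 : ∀ y, ∃ z : ℤ, y - ρ y = z := by
    intro y
    simp only [ρ]
    split_ifs
    · exact ⟨⌊y⌋, by rw [Int.fract]; ring⟩
    · exact ⟨⌊y⌋ - 1, by rw [Int.fract]; push_cast; ring⟩
  have h2 : ∀ y, t ≤ ρ y := by
    intro y
    simp only [ρ]
    split_ifs with h
    · exact h
    · have := Int.fract_nonneg y
      linarith
  have h3 : ∀ y, ρ y + ρ (-y) ≤ 2 := by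
    intro y
    by_cases hy : Int.fract y = 0
    · have h4 : Int.fract (-y) = 0 := Int.fract_neg_eq_zero.mpr hy
      simp only [ρ, hy, h4, if_neg (not_le.mpr ht)]
      norm_num
    · have h4 : Int.fract (-y) = 1 - Int.fract y := Int.fract_neg hy
      simp only [ρ, h4]
      split_ifs <;> linarith
  have h4 : ρ (x l₀) + ρ (-x l₀) = 1 := by
    obtain ⟨z, hz⟩ := hl₀
    have h5 : Int.fract (x l₀) = t := by
      have : x l₀ = t + z := by linarith
      rw [this, Int.fract_add_intCast, Int.fract_eq_self.mpr ⟨ht.le, by linarith⟩]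
    have h6 : Int.fract (-x l₀) = 1 - t := by
      rw [← h5]; exact Int.fract_neg (by rw [h5]; exact ht.ne')
    simp only [ρ, h5, h6, le_refl, if_true]
    rw [if_pos (by linarith)]
    ring
  have h5 : ∑ l, (ρ (x l) + ρ (-x l)) < 2 * r := by
    have h6 : ∑ l, (ρ (x l) + ρ (-x l)) < ∑ _l : Fin r, (2 : ℚ) :=
      sum_lt_sum (fun l _ => h3 (x l)) ⟨l₀, mem_univ _, by rw [h4]; norm_num⟩
    refine h6.trans_eq ?_
    rw [sum_const, card_univ, Fintype.card_fin, nsmul_eq_mul]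
    ring
  rw [sum_add_distrib] at h5
  rcases lt_or_ge (∑ l, ρ (x l)) r with h6 | h6
  · exact ⟨1, Or.inl rfl, fun l => ρ (x l), fun l => by simpa using h1 (x l), fun l => h2 _, h6⟩
  · refine ⟨-1, Or.inr rfl, fun l => ρ (-x l), fun l => ?_, fun l => h2 _, by linarith⟩
    obtain ⟨z, hz⟩ := h1 (-x l)
    exact ⟨z, by rw [← hz]; push_cast; ring⟩

/-- Denominators prime to the others and occurring at one singular point only. -/
theorem one_point {R : Type u} [CommRing R] [IsDomain R] [CharZero R] {n r : ℕ} (α : Fin n → R)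
    (hα : ∀ i j, i ≠ j → IsUnit (α i - α j)) (A : Fin n → Matrix (Fin r) (Fin r) R)
    (lam : Fin (n + 1) → Fin r → ℚ) (hlam : ∀ j : Fin n, HasExponents (A j) (lam j.castSucc))
    (hinf : HasExponents (∑ j, A j) (fun l => -lam (Fin.last n) l)) {ι : Type*} [Fintype ι]
    {c : Fin (n + 1) → ℚ} {mu : Fin (n + 1) → Fin r → ℚ} {nu : ι → Fin (n + 1) → Fin r → ℚ}
    {N₀ : ℕ} {M q : ι → ℕ} {S : ι → Finset (Fin (n + 1))} {T : ι → Finset ℚ}
    {e : ι → Fin (n + 1) × Fin r} (H : Parts ι lam c mu nu N₀ M q S T e)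
    (i₀ : Fin (n + 1)) (hmu : ∀ i, i ≠ i₀ → ∀ l, ∃ z : ℤ, mu i l = z)
    (h0 : (∑ k, ((S k).card : ℚ) / q k ≤ 1 / 6 ∧ ∃ l, ¬ ∃ z : ℤ, mu i₀ l = z) ∨
      ∃ l, ∃ b : ℕ, 0 < b ∧ b.Coprime (mu i₀ l).den ∧ 2 * b ≤ (mu i₀ l).den ∧
        ∑ k, ((S k).card : ℚ) / q k ≤ b / (mu i₀ l).den)
    (N : ℕ) (hN : 0 < N) (hNlam : ∀ i l, ∃ z : ℤ, (N : ℚ) * lam i l = z) :
    ∃ a : ℤ, IsCoprime a (N : ℤ) ∧ Bad α A N a := by
  classical
  by_contra hcon
  push Not at hcon
  obtain ⟨l₀, b, hb0, hb, hb2, hsum⟩ : ∃ l, ∃ b : ℕ, 0 < b ∧ b.Coprime (mu i₀ l).den ∧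
      2 * b ≤ (mu i₀ l).den ∧ ∑ k, ((S k).card : ℚ) / q k ≤ b / (mu i₀ l).den := by
    rcases h0 with ⟨h1, l, hl⟩ | h0
    · have hden : 1 < (mu i₀ l).den := by
        have h2 := (mu i₀ l).den_pos
        have h3 : (mu i₀ l).den ≠ 1 := fun h => hl ⟨(mu i₀ l).num, ((Rat.den_eq_one_iff _).mp h).symm⟩
        omega
      obtain ⟨b, hb0, hb, hb2, hb6⟩ := exists_coprime_mid hden
      refine ⟨l, b, hb0, hb, hb2, h1.trans ?_⟩
      rw [le_div_iff₀ (by exact_mod_cast (mu i₀ l).den_pos)]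
      have : ((mu i₀ l).den : ℚ) ≤ 6 * b := by exact_mod_cast hb6
      linarith
    · exact h0
  have hm : (0 : ℚ) < (mu i₀ l₀).den := by exact_mod_cast (mu i₀ l₀).den_pos
  have hb0' : (0 : ℚ) < b := by exact_mod_cast hb0
  have hb2' : 2 * (b : ℚ) ≤ (mu i₀ l₀).den := by exact_mod_cast hb2
  obtain ⟨a₁, ha₁, z₁, hz₁⟩ := exists_unit_mul H.hN₀ hb
  obtain ⟨ε, hε, ρ, hρ1, hρ2, hρ3⟩ := exists_reps (fun l => (a₁ : ℚ) * mu i₀ l) l₀
    (t := (b : ℚ) / (mu i₀ l₀).den) (by positivity)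
    (by rw [mul_div_assoc', div_le_one hm]; exact hb2') ⟨z₁, hz₁⟩
  have hcopε : IsCoprime (ε * a₁) (N₀ : ℤ) := by
    rcases hε with rfl | rfl
    · rw [one_mul]; exact ha₁
    · rw [neg_one_mul]; exact ha₁.neg_left
  have hkap : ∑ i, (if i = i₀ then (b : ℚ) / (mu i₀ l₀).den else 0) = (b : ℚ) / (mu i₀ l₀).den := by
    simp
  have key := general α hα A lam hlam hinf H N hN hNlam (fun a ha => hcon a ha) (ε * a₁) hcopε
    (fun i l => if i = i₀ then ρ l else 0) (fun i l => by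
      by_cases hi : i = i₀
      · subst hi
        obtain ⟨z, hz⟩ := hρ1 l
        exact ⟨z, by rw [if_pos rfl, ← hz]; push_cast; ring⟩
      · obtain ⟨z, hz⟩ := hmu i hi l
        exact ⟨ε * a₁ * z, by rw [if_neg hi, hz]; push_cast; ring⟩)
    (fun i => if i = i₀ then (b : ℚ) / (mu i₀ l₀).den else 0) (fun i l => by
      by_cases hi : i = i₀
      · subst hi
        simp only [if_true]
        exact hρ2 l
      · simp only [if_neg hi, le_refl]) (by rw [hkap]; positivity) (by rw [hkap]; exact hsum)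
  have h1 : ∑ i, ∑ l, (if i = i₀ then ρ l else 0) = ∑ l, ρ l := by
    rw [sum_eq_single i₀]
    · simp
    · intro i _ hi
      simp [if_neg hi]
    · intro h; exact absurd (mem_univ _) h
  rw [h1] at key
  linarith

end Pool.Agent.Helper104.PCD
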