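import Mathlib

set_option autoImplicit false

/-!
Few units modulo `n` are near zero.
-/

namespace Pool.Agent.Helper104.PCD

open Finset

/-- The number of the integers in `(0, m]` which are prime to `n`. -/
def cnt (n m : ℕ) : ℕ := ((Ioc 0 m).filter fun b => n.Coprime b).card

lemma sum_moebius (k : ℕ) :
    ∑ d ∈ k.divisors, ArithmeticFunction.moebius d = if k = 1 then 1 else 0 := by
  have h := congrArg (fun f : ArithmeticFunction ℤ => f k)
    (ArithmeticFunction.coe_zeta_mul_moebius)
  simp only [ArithmeticFunction.coe_zeta_mul_apply, ArithmeticFunction.one_apply] at h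
  exact h

lemma legendre {n : ℕ} (hn : 0 < n) (m : ℕ) :
    (cnt n m : ℤ) = ∑ d ∈ n.divisors, ArithmeticFunction.moebius d * ((m / d : ℕ) : ℤ) := by
  classical
  have h1 : (cnt n m : ℤ) = ∑ b ∈ Ioc 0 m, if n.Coprime b then (1 : ℤ) else 0 := by
    rw [cnt, card_filter]; push_cast; rfl
  have h2 : ∀ b ∈ Ioc 0 m, (if n.Coprime b then (1 : ℤ) else 0) =
      ∑ d ∈ n.divisors, if d ∣ b then ArithmeticFunction.moebius d else 0 := by
    intro b hb
    have hb0 := (mem_Ioc.mp hb).1
    have h3 := sum_moebius (Nat.gcd n b)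
    rw [← sum_filter]
    have h4 : n.divisors.filter (fun d => d ∣ b) = (Nat.gcd n b).divisors := by
      ext d
      rw [mem_filter, Nat.mem_divisors, Nat.mem_divisors, Nat.dvd_gcd_iff]
      constructor
      · rintro ⟨⟨h5, h6⟩, h7⟩
        exact ⟨⟨h5, h7⟩, (Nat.gcd_pos_of_pos_left b hn).ne'⟩
      · rintro ⟨⟨h5, h6⟩, h7⟩
        exact ⟨⟨h5, hn.ne'⟩, h6⟩
    rw [h4, h3]
  rw [h1, sum_congr rfl h2, sum_comm]
  refine sum_congr rfl fun d hd => ?_
  rw [← sum_filter, sum_const, Nat.Ioc_filter_dvd_card_eq_div, nsmul_eq_mul, mul_comm]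

lemma cnt_self (n : ℕ) : cnt n n = n.totient := by
  have h := Nat.filter_coprime_Ico_eq_totient n 1
  rw [cnt, ← h]
  congr 1
  ext b
  simp only [mem_filter, mem_Ioc, mem_Ico]
  constructor
  · rintro ⟨⟨h1, h2⟩, h3⟩; exact ⟨⟨by omega, by omega⟩, h3⟩
  · rintro ⟨⟨h1, h2⟩, h3⟩; exact ⟨⟨by omega, by omega⟩, h3⟩

lemma card_neg {n : ℕ} (hn : 1 < n) :
    2 * (n.divisors.filter fun d => ArithmeticFunction.moebius d = -1).card =
      2 ^ n.primeFactors.card := by
  classical
  have hn0 : 0 < n := by omega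
  have h1 := sum_moebius n
  rw [if_neg (by omega)] at h1
  have h2 : ∑ d ∈ n.divisors, ArithmeticFunction.moebius d =
      ((n.divisors.filter fun d => ArithmeticFunction.moebius d = 1).card : ℤ) -
      (n.divisors.filter fun d => ArithmeticFunction.moebius d = -1).card := by
    rw [card_filter, card_filter]
    push_cast
    rw [← sum_sub_distrib]
    refine sum_congr rfl fun d _ => ?_
    rcases ArithmeticFunction.moebius_eq_or d with h | h | h <;> rw [h] <;> norm_num
  have h3 : (n.divisors.filter fun d => ArithmeticFunction.moebius d = 1).card +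
      (n.divisors.filter fun d => ArithmeticFunction.moebius d = -1).card =
      (n.divisors.filter Squarefree).card := by
    rw [← card_union_of_disjoint]
    · congr 1
      ext d
      rw [mem_union, mem_filter, mem_filter, mem_filter, ← and_or_left]
      refine and_congr_right fun _ => ?_
      rw [← ArithmeticFunction.moebius_ne_zero_iff_squarefree]
      rcases ArithmeticFunction.moebius_eq_or d with h | h | h <;> rw [h] <;> norm_num
    · rw [disjoint_left]
      intro d h4 h5
      have h6 := (mem_filter.mp h4).2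
      have h7 := (mem_filter.mp h5).2
      rw [h6] at h7
      norm_num at h7
  have h4 : (n.divisors.filter Squarefree).card = 2 ^ n.primeFactors.card := by
    have h5 := Nat.sum_divisors_filter_squarefree hn0.ne' (f := fun _ => (1 : ℕ))
    simp only [sum_const, smul_eq_mul, mul_one] at h5
    rw [h5, card_powerset, Nat.factors_eq]
    rfl
  rw [h2] at h1
  omega

/-- Legendre's inequality. -/
lemma cnt_le {n : ℕ} (hn : 1 < n) (m : ℕ) :
    2 * n * cnt n m ≤ 2 * m * n.totient + n * 2 ^ n.primeFactors.card := by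
  classical
  have hn0 : 0 < n := by omega
  have h1 := legendre hn0 m
  have h2 := legendre hn0 n
  rw [cnt_self] at h2
  have h3 : (n : ℤ) * cnt n m - m * n.totient ≤
      n * (n.divisors.filter fun d => ArithmeticFunction.moebius d = -1).card := by
    rw [h1, h2, mul_sum, mul_sum, ← sum_sub_distrib, card_filter]
    simp only [Nat.cast_sum, Nat.cast_ite, Nat.cast_one, Nat.cast_zero]
    rw [mul_sum]
    refine sum_le_sum fun d hd => ?_
    obtain ⟨k, hk⟩ := (Nat.mem_divisors.mp hd).1
    have hd0 : 0 < d := Nat.pos_of_mem_divisors hd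
    have h4 : n / d = k := by rw [hk]; exact Nat.mul_div_cancel_left k hd0
    have h5 : (d : ℤ) * ((m / d : ℕ) : ℤ) ≤ m := by exact_mod_cast Nat.mul_div_le m d
    have h6 : (m : ℤ) ≤ d * ((m / d : ℕ) : ℤ) + d := by
      have := Nat.lt_div_mul_add (a := m) hd0
      have h7 : m ≤ d * (m / d) + d := by
        rw [mul_comm]; exact this.le
      exact_mod_cast h7
    have hk0 : (0 : ℤ) ≤ k := by positivity
    rw [h4]
    have hnk : (n : ℤ) = d * k := by exact_mod_cast hk
    generalize ((m / d : ℕ) : ℤ) = x at h5 h6 ⊢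
    rcases ArithmeticFunction.moebius_eq_or d with h | h | h <;> rw [h]
    · norm_num
    · norm_num
      rw [hnk]
      nlinarith
    · norm_num
      rw [hnk]
      nlinarith
  have h4 := card_neg hn
  have h5 : (2 : ℤ) * (n.divisors.filter fun d => ArithmeticFunction.moebius d = -1).card =
      2 ^ n.primeFactors.card := by exact_mod_cast h4
  have h6 : (2 * n * cnt n m : ℤ) ≤ 2 * m * n.totient + n * 2 ^ n.primeFactors.card := by
    rw [← h5]
    linarith
  exact_mod_cast h6

/-- The number of prime factors is small. -/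
lemma omega_le {n : ℕ} (hn : 0 < n) : 4 ^ n.primeFactors.card * n ≤ 48 * n.totient ^ 2 := by
  classical
  let w : ℕ → ℕ := fun p => if p = 2 then 8 else if p = 3 then 3 else if p = 5 then 2 else 1
  have hw1 : ∀ p, 1 ≤ w p := by
    intro p; simp only [w]; split_ifs <;> norm_num
  have h1 : 4 ^ n.primeFactors.card * n = ∏ p ∈ n.primeFactors, (4 * p ^ n.factorization p) := by
    rw [prod_mul_distrib, prod_const]
    congr 1
    exact (Nat.prod_factorization_pow_eq_self hn.ne').symm
  have h2 : n.totient = ∏ p ∈ n.primeFactors, (p ^ (n.factorization p - 1) * (p - 1)) :=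
    Nat.totient_eq_prod_factorization hn.ne'
  have h3 : ∏ p ∈ n.primeFactors, w p ≤ 48 := by
    have h4 : ∏ p ∈ n.primeFactors, w p ≤ ∏ p ∈ n.primeFactors ∪ {2, 3, 5}, w p :=
      prod_le_prod_of_subset_of_one_le' subset_union_left fun p _ _ => hw1 p
    have h5 : ∏ p ∈ n.primeFactors ∪ {2, 3, 5}, w p = ∏ p ∈ ({2, 3, 5} : Finset ℕ), w p := by
      symm
      refine prod_subset subset_union_right fun p _ hp => ?_
      simp only [mem_insert, mem_singleton, not_or] at hp
      simp only [w, if_neg hp.1, if_neg hp.2.1, if_neg hp.2.2]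
    rw [h5] at h4
    refine h4.trans ?_
    decide
  calc 4 ^ n.primeFactors.card * n = ∏ p ∈ n.primeFactors, (4 * p ^ n.factorization p) := h1
    _ ≤ ∏ p ∈ n.primeFactors, (w p * (p ^ (n.factorization p - 1) * (p - 1)) ^ 2) := by
        refine prod_le_prod' fun p hp => ?_
        have hp' := Nat.prime_of_mem_primeFactors hp
        have hk : 0 < n.factorization p := by
          rw [Nat.pos_iff_ne_zero, ← Finsupp.mem_support_iff]
          exact hp
        obtain ⟨k, hk⟩ : ∃ k, n.factorization p = k + 1 := ⟨n.factorization p - 1, by omega⟩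
        rw [hk, Nat.add_sub_cancel, pow_succ]
        obtain ⟨s, hs⟩ : ∃ s, p = s + 1 := ⟨p - 1, by have := hp'.pos; omega⟩
        have h6 : 4 * p ≤ w p * (p - 1) ^ 2 := by
          simp only [w]
          split_ifs with h2 h3 h5
          · rw [h2]; norm_num
          · rw [h3]; norm_num
          · rw [h5]; norm_num
          · have h7 : 7 ≤ p := by
              by_contra hcon
              push Not at hcon
              have := hp'.two_le
              interval_cases p <;> first | omega | (exact absurd hp' (by norm_num))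
            rw [hs] at h7 ⊢
            rw [Nat.add_sub_cancel]
            nlinarith
        have h7 : 1 ≤ p ^ k := Nat.one_le_pow _ _ hp'.pos
        calc 4 * (p ^ k * p) = p ^ k * (4 * p) := by ring
          _ ≤ p ^ k * (w p * (p - 1) ^ 2) := Nat.mul_le_mul_left _ h6
          _ ≤ p ^ k * (w p * (p - 1) ^ 2) * p ^ k := Nat.le_mul_of_pos_right _ h7
          _ = w p * (p ^ k * (p - 1)) ^ 2 := by ring
    _ = (∏ p ∈ n.primeFactors, w p) * n.totient ^ 2 := by
        rw [prod_mul_distrib, prod_pow, ← h2]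
    _ ≤ 48 * n.totient ^ 2 := Nat.mul_le_mul_right _ h3

/-- The units modulo `n` near zero. -/
noncomputable def near (n : ℕ) (t : ℚ) : Finset ℕ :=
  (range n).filter fun b => n.Coprime b ∧ ((b : ℚ) < t * n ∨ (n : ℚ) - b < t * n)

lemma card_near_le {n : ℕ} (hn : 1 < n) {t : ℚ} (ht : 0 < t) :
    ∃ m : ℕ, (m : ℚ) < t * n ∧ (near n t).card ≤ 2 * cnt n m := by
  classical
  have hnq : (0 : ℚ) < n := by exact_mod_cast (by omega : 0 < n)
  have htn : 0 < t * n := mul_pos ht hnq
  have hc : 0 < ⌈t * n⌉₊ := Nat.ceil_pos.mpr htn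
  refine ⟨⌈t * n⌉₊ - 1, ?_, ?_⟩
  · rw [← Nat.lt_ceil]; omega
  · have hsub : near n t ⊆ ((Ioc 0 (⌈t * n⌉₊ - 1)).filter fun b => n.Coprime b) ∪
        ((Ioc 0 (⌈t * n⌉₊ - 1)).filter fun b => n.Coprime b).image (fun b => n - b) := by
      intro b hb
      rw [near, mem_filter, mem_range] at hb
      obtain ⟨h1, h2, h3⟩ := hb
      have hb0 : 0 < b := by
        rcases Nat.eq_zero_or_pos b with rfl | h
        · rw [Nat.coprime_zero_right] at h2; omega
        · exact h
      rw [mem_union]
      rcases h3 with h3 | h3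
      · left
        rw [mem_filter, mem_Ioc]
        have := Nat.lt_ceil.mpr h3
        exact ⟨⟨hb0, by omega⟩, h2⟩
      · right
        rw [mem_image]
        refine ⟨n - b, ?_, by omega⟩
        rw [mem_filter, mem_Ioc]
        have h4 : ((n - b : ℕ) : ℚ) < t * n := by
          rw [Nat.cast_sub h1.le]; exact h3
        have := Nat.lt_ceil.mpr h4
        refine ⟨⟨by omega, by omega⟩, ?_⟩
        exact (Nat.coprime_self_sub_right h1.le).mpr h2
    refine (card_le_card hsub).trans ((card_union_le _ _).trans ?_)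
    have := card_image_le (s := (Ioc 0 (⌈t * n⌉₊ - 1)).filter fun b => n.Coprime b)
      (f := fun b => n - b)
    rw [cnt]
    omega

lemma cnt_zero (n : ℕ) : cnt n 0 = 0 := by simp [cnt]

/-- Near zero for all moduli. -/
lemma sparse_all {n r : ℕ} (hn : 1 < n) (hr : 0 < r) {t : ℚ} (ht : 0 < t)
    (h : 54 * (r : ℚ) ^ 2 * t ≤ 1) : r * (near n t).card < n.totient := by
  obtain ⟨m, hm, hcard⟩ := card_near_le hn ht
  have hphi : 0 < n.totient := Nat.totient_pos.mpr (by omega)
  rcases Nat.eq_zero_or_pos m with rfl | hm0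
  · rw [cnt_zero] at hcard
    have : (near n t).card = 0 := by omega
    rw [this, mul_zero]
    exact hphi
  · have hnq : (1 : ℚ) < n := by exact_mod_cast hn
    have hrq : (1 : ℚ) ≤ r := by exact_mod_cast hr
    have hm1 : (1 : ℚ) ≤ m := by exact_mod_cast hm0
    set φ : ℚ := (n.totient : ℚ) with hφ
    have hφ0 : 0 < φ := by rw [hφ]; exact_mod_cast hphi
    set W : ℚ := 2 ^ n.primeFactors.card with hW
    have hW0 : 0 < W := by positivity
    have h1 : 2 * (n : ℚ) * cnt n m ≤ 2 * m * φ + n * W := by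
      rw [hφ, hW]; exact_mod_cast cnt_le hn m
    have h2 : W ^ 2 * n ≤ 48 * φ ^ 2 := by
      have h3 := omega_le (n := n) (by omega)
      have h4 : ((4 ^ n.primeFactors.card * n : ℕ) : ℚ) ≤ ((48 * n.totient ^ 2 : ℕ) : ℚ) := by
        exact_mod_cast h3
      push_cast at h4
      rw [hW, ← pow_mul, mul_comm _ 2, pow_mul]
      norm_num
      exact h4
    -- the main term
    have h3 : 2 * (cnt n m : ℚ) < 2 * t * φ + W := by
      have h4 : (2 * (cnt n m : ℚ)) * n < (2 * t * φ + W) * n := by nlinarith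
      exact lt_of_mul_lt_mul_right h4 (by linarith)
    have h4 : 1 < t * n := lt_of_le_of_lt hm1 hm
    -- the error term
    have h5 : (r * W) ^ 2 ≤ (8 / 9) * φ ^ 2 := by
      have h6 : (r * W) ^ 2 ≤ (r * W) ^ 2 * (t * n) := le_mul_of_one_le_right (by positivity) h4.le
      have h7 : (r * W) ^ 2 * (t * n) = (r ^ 2 * t) * (W ^ 2 * n) := by ring
      have h8 : (r : ℚ) ^ 2 * t * (W ^ 2 * n) ≤ (1 / 54) * (48 * φ ^ 2) :=
        mul_le_mul (by linarith) h2 (by positivity) (by norm_num)
      linarith
    have h6 : r * W ≤ (17 / 18) * φ := by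
      refine abs_le_of_sq_le_sq' (a := r * W) (b := (17 / 18) * φ) ?_ (by positivity) |>.2
      nlinarith
    have h7 : (r : ℚ) * t ≤ 1 / 54 := by
      have h8 : (r : ℚ) * t ≤ r ^ 2 * t := by
        have : (r : ℚ) * t * 1 ≤ r * t * r := mul_le_mul_of_nonneg_left hrq (by positivity)
        nlinarith
      linarith
    have h8 : (r : ℚ) * (2 * cnt n m) < φ := by
      have h9 : (r : ℚ) * (2 * cnt n m) < r * (2 * t * φ + W) :=
        mul_lt_mul_of_pos_left h3 (by linarith)
      have h10 : (r : ℚ) * (2 * t * φ + W) = 2 * (r * t) * φ + r * W := by ring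
      nlinarith
    have h9 : (r * (near n t).card : ℚ) < φ := by
      have h10 : ((near n t).card : ℚ) ≤ 2 * cnt n m := by exact_mod_cast hcard
      have := mul_le_mul_of_nonneg_left h10 (by linarith : (0 : ℚ) ≤ r)
      linarith
    rw [hφ] at h9
    exact_mod_cast h9

/-- Near zero for prime moduli. -/
lemma sparse_prime {n r : ℕ} (hn : n.Prime) (hr : 0 < r) {t : ℚ} (ht : 0 < t)
    (h : 2 * (r : ℚ) * n * t ≤ n - 1) : r * (near n t).card < n.totient := by
  obtain ⟨m, hm, hcard⟩ := card_near_le hn.one_lt ht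
  have h1 : cnt n m ≤ m := by
    rw [cnt]
    refine (card_filter_le _ _).trans ?_
    simp
  have hrq : (0 : ℚ) < r := by exact_mod_cast hr
  have h2 : (r * (near n t).card : ℚ) < (n : ℚ) - 1 := by
    have h3 : ((near n t).card : ℚ) ≤ 2 * m := by exact_mod_cast hcard.trans (by omega)
    have h4 : (r : ℚ) * (near n t).card ≤ r * (2 * m) := mul_le_mul_of_nonneg_left h3 hrq.le
    have h5 : (r : ℚ) * (2 * m) < r * (2 * (t * n)) := by
      refine mul_lt_mul_of_pos_left ?_ hrq
      linarith
    linarith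
  rw [Nat.totient_prime hn]
  have h3 : ((n - 1 : ℕ) : ℚ) = (n : ℚ) - 1 := by rw [Nat.cast_sub hn.one_lt.le]; simp
  rw [← h3] at h2
  exact_mod_cast h2

/-- Near zero for small moduli. -/
lemma sparse_small {n r : ℕ} (hn : 1 < n) {t : ℚ} (ht : 0 < t)
    (h : n * t ≤ 1) : r * (near n t).card < n.totient := by
  obtain ⟨m, hm, hcard⟩ := card_near_le hn ht
  have h1 : (m : ℚ) < 1 := by linarith
  have h2 : m = 0 := by
    have : m < 1 := by exact_mod_cast h1
    omega
  rw [h2, cnt_zero] at hcard
  have : (near n t).card = 0 := by omega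
  rw [this, mul_zero]
  exact Nat.totient_pos.mpr (by omega)

end Pool.Agent.Helper104.PCD
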