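import Pool.Agent.Y227.TP.Main
import Pool.Agent.Helper104.PCD.Dirichlet

set_option autoImplicit false

/-!
The parts of the exponents at large primes split off.
-/

open Polynomial

namespace Pool.Agent.Helper104.PCD

open Pool.Agent.W432.PC Pool.Agent.W432.TC Pool.Agent.W432.HK Pool.Agent.Y227.SS
open Pool.Agent.TH571.GP Pool.Agent.Y227.TP

universe u

lemma isInt_of_coprime {a b : ℤ} (h : IsCoprime a b) {x : ℚ} (ha : ∃ z : ℤ, (a : ℚ) * x = z)
    (hb : ∃ z : ℤ, (b : ℚ) * x = z) : ∃ z : ℤ, x = z := by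
  obtain ⟨u, v, huv⟩ := h
  obtain ⟨z, hz⟩ := ha
  obtain ⟨z', hz'⟩ := hb
  refine ⟨u * z + v * z', ?_⟩
  have h1 : ((u * a + v * b : ℤ) : ℚ) = 1 := by rw [huv]; simp
  push_cast at h1 ⊢
  linear_combination (u : ℚ) * hz + (v : ℚ) * hz' - x * h1

/-- A torsion coset containing `a mu + nu`, modulo integers, where the order of `nu` is prime to the
order of `mu` and has only large prime factors, contains all the points `a mu + k nu`. -/
lemma coset_split {I : Type*} [Fintype I] (Λ : AddSubgroup (I → ℤ)) (x₀ : I → ℚ) (B N₀ M : ℕ)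
    (hB : ∀ i, ∃ z : ℤ, (B : ℚ) * x₀ i = z) (hcop : (B * N₀).Coprime M) (mu nu : I → ℚ)
    (hmu : ∀ i, ∃ z : ℤ, (N₀ : ℚ) * mu i = z) (hnu : ∀ i, ∃ z : ℤ, (M : ℚ) * nu i = z) (a : ℤ)
    (h : ∀ m ∈ Λ, ∃ z : ℤ, ∑ i, (m i : ℚ) * (a * mu i + nu i - x₀ i) = z) (k : ℤ) :
    ∀ m ∈ Λ, ∃ z : ℤ, ∑ i, (m i : ℚ) * (a * mu i + k * nu i - x₀ i) = z := by
  intro m hm
  choose b hb using hB
  choose c hc using hmu
  choose d hd using hnu
  obtain ⟨z, hz⟩ := h m hm
  have h1 : ∃ z : ℤ, ∑ i, (m i : ℚ) * nu i = z := by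
    refine isInt_of_coprime (a := ((B * N₀ : ℕ) : ℤ)) (b := (M : ℤ))
      (Nat.isCoprime_iff_coprime.mpr hcop) ?_ ?_
    · refine ⟨B * N₀ * z - B * a * ∑ i, m i * c i + N₀ * ∑ i, m i * b i, ?_⟩
      push_cast
      rw [← hz]
      simp only [Finset.mul_sum, ← hb, ← hc]
      rw [← Finset.sum_sub_distrib, ← Finset.sum_add_distrib]
      refine Finset.sum_congr rfl fun i _ => ?_
      ring
    · refine ⟨∑ i, m i * d i, ?_⟩
      push_cast
      simp only [Finset.mul_sum, ← hd]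
      refine Finset.sum_congr rfl fun i _ => ?_
      ring
  obtain ⟨z', hz'⟩ := h1
  refine ⟨z + (k - 1) * z', ?_⟩
  push_cast
  rw [← hz, ← hz', Finset.mul_sum, ← Finset.sum_add_distrib]
  refine Finset.sum_congr rfl fun i _ => ?_
  ring

/-- The parts at large primes split off. -/
theorem split_off (n r : ℕ) :
    ∃ (ε : ℝ) (P : ℕ), 0 < ε ∧
      ∀ (R : Type u) [CommRing R] [IsDomain R] [CharZero R] [Algebra.FiniteType ℤ R]
        (α : Fin n → R) (A : Fin n → Matrix (Fin r) (Fin r) R),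
        (∀ i j, i ≠ j → IsUnit (α i - α j)) →
        ∀ (lam : Fin n → Fin r → ℚ) (phi : Fin r → ℚ) (N : ℕ), (∀ j, HasExponents (A j) (lam j)) →
          HasExponents (∑ j, A j) phi → CommonDen lam phi N → BadClasses α A N ε 1 ∨
          ∀ (mu nu : ExponentIndex n r → ℚ) (N₀ M : ℕ),
            (∀ j l, lam j l = mu (Sum.inl (j, l)) + nu (Sum.inl (j, l))) →
            (∀ l, phi l = mu (Sum.inr l) + nu (Sum.inr l)) → 0 < N₀ → 0 < M → N₀.Coprime M →
            (∀ p : ℕ, p.Prime → p ∣ M → P < p) → (∀ i, ∃ z : ℤ, (N₀ : ℚ) * mu i = z) →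
            (∀ i, ∃ z : ℤ, (M : ℚ) * nu i = z) → ∀ a k : ℤ, IsCoprime a (N₀ : ℤ) →
              SemistableWeights ℂ
                (fun j l => (a : ℝ) * mu (Sum.inl (j, l)) + k * nu (Sum.inl (j, l)))
                (fun l => (a : ℝ) * mu (Sum.inr l) + k * nu (Sum.inr l)) := by
  classical
  obtain ⟨ε₁, hε₁, hgap₁⟩ := Pool.Agent.Y227.UD.gap (I := ExponentIndex n r) (traceRelation n r)
    {z | (∃ e : ℤ, ∑ i, (traceRelation n r i : ℝ) * z i = e) ∧ ¬ Nice z}
    (fun y hy => nice_open y hy)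
  obtain ⟨𝒟, h𝒟, hcov⟩ := torsion_cosets (I := ExponentIndex n r) (traceRelation n r)
    {z | (∃ e : ℤ, ∑ i, (traceRelation n r i : ℝ) * z i = e) ∧ ¬ Nice z}
    (fun y hy => nice_open y hy)
  have hC : ∀ C ∈ 𝒟, ∀ z : ExponentIndex n r → ℝ, InCoset C.1 C.2 z → Nice z := by
    intro C hC z hz
    by_contra h
    obtain ⟨-, h1, ⟨e, h2⟩, h3⟩ := h𝒟 C hC
    refine h3 z hz ⟨?_, h⟩
    obtain ⟨e', he'⟩ := hz _ h1
    refine ⟨e' + e, ?_⟩
    have h4 : ∑ i, (traceRelation n r i : ℝ) * C.2 i = e := by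
      have := congrArg (fun q : ℚ => (q : ℝ)) h2
      push_cast at this
      exact this
    push_cast
    rw [← he', ← h4, ← Finset.sum_add_distrib]
    exact Finset.sum_congr rfl fun i _ => by ring
  -- the common denominator of the cosets
  set B : ℕ := ∏ C ∈ 𝒟, ∏ i, (C.2 i).den with hB
  have hB0 : 0 < B := Finset.prod_pos fun C _ => Finset.prod_pos fun i _ => (C.2 i).den_pos
  have hBi : ∀ C ∈ 𝒟, ∀ i, ∃ z : ℤ, (B : ℚ) * C.2 i = z := by
    intro C hCm i
    obtain ⟨d, hd⟩ : (C.2 i).den ∣ B :=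
      (Finset.dvd_prod_of_mem (fun i => (C.2 i).den) (Finset.mem_univ i)).trans
        (Finset.dvd_prod_of_mem (fun C : AddSubgroup (ExponentIndex n r → ℤ) ×
          (ExponentIndex n r → ℚ) => ∏ i, (C.2 i).den) hCm)
    refine ⟨d * (C.2 i).num, ?_⟩
    rw [hd]
    push_cast
    have := Rat.den_mul_eq_num (C.2 i)
    rw [mul_comm ((C.2 i).den : ℚ) d, mul_assoc, this]
  refine ⟨ε₁, B, hε₁, ?_⟩
  intro R _ _ _ _ α A hα lam phi N hlam hphi hNN
  refine or_iff_not_imp_left.mpr fun hnb => ?_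
  obtain ⟨hN, hNlam, hNphi⟩ := hNN
  have : NeZero N := ⟨hN.ne'⟩
  have := charZero_fraction (R := R)
  set x : ExponentIndex n r → ℚ := Sum.elim (fun p => lam p.1 p.2) phi with hx
  have hNx : ∀ i, ∃ z : ℤ, (N : ℚ) * x i = z := by
    rintro (⟨j, l⟩ | l)
    · exact hNlam j l
    · exact hNphi l
  have htr : ∑ i, (traceRelation n r i : ℚ) * x i = 0 := by
    rw [tr_sum]
    simp only [hx, Sum.elim_inl, Sum.elim_inr]
    have h1 := HasExponents.trace hphi
    have h2 := fun j => HasExponents.trace (hlam j)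
    have h3 : (∑ j, A j).trace = ∑ j, (A j).trace := by
      rw [Matrix.trace_sum]
    rw [h3, map_sum, Finset.sum_congr rfl fun j _ => h2 j] at h1
    have h4 : ((∑ j, ∑ l, lam j l : ℚ) : FractionRing R) =
        ((∑ l, phi l : ℚ) : FractionRing R) := by
      push_cast
      push_cast at h1
      exact h1
    have h5 : ∑ j, ∑ l, lam j l = ∑ l, phi l := by exact_mod_cast h4
    rw [h5, sub_self]
  have htrZ : ∃ z : ℤ, ∑ i, (traceRelation n r i : ℚ) * x i = z := ⟨0, by rw [htr]; simp⟩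
  have htrR : ∀ a : ℤ, ∃ e : ℤ, ∑ i, (traceRelation n r i : ℝ) * ((a : ℝ) * x i) = e := by
    intro a
    refine ⟨0, ?_⟩
    have h1 : ∑ i, (traceRelation n r i : ℝ) * x i = 0 := by
      have := congrArg (fun q : ℚ => (q : ℝ)) htr
      push_cast at this
      exact this
    rw [Int.cast_zero]
    calc ∑ i, (traceRelation n r i : ℝ) * ((a : ℝ) * x i) =
          a * ∑ i, (traceRelation n r i : ℝ) * x i := by
            rw [Finset.mul_sum]
            exact Finset.sum_congr rfl fun i _ => by ring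
      _ = 0 := by rw [h1, mul_zero]
  have hrep : ∀ u : (ZMod N)ˣ, (((((u : (ZMod N)ˣ) : ZMod N).val : ℤ)) : ZMod N) =
      ((u : (ZMod N)ˣ) : ZMod N) := by
    intro u
    push_cast; rw [ZMod.natCast_zmod_val]
  have hnice : ∀ a : ℤ, IsCoprime a (N : ℤ) → Nice (fun i => (a : ℝ) * x i) := by
    by_contra hcon
    push Not at hcon
    obtain ⟨a₀, ha₀, hna₀⟩ := hcon
    obtain ⟨S, hS1, hS2⟩ := hgap₁ x htrZ N hN hNx ⟨a₀, ha₀, htrR a₀, hna₀⟩
    apply hnb
    have hbad : BadClasses α A N ε₁ (∏ u ∈ S, (fun _ => (1 : R)) u) := by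
      refine collect' α A N hN _ S hS1 (fun _ => (1 : R)) fun u hu => ⟨_, hrep u, ?_⟩
      have h1 := (hS2 u hu _ (hrep u)).2
      unfold Nice at h1
      rw [not_and_or] at h1
      obtain ⟨P₀, hP₀⟩ : ∃ P₀ : ℕ, ∀ p : ℕ, p.Prime → P₀ < p →
          (N : ℤ) ∣ (((u : (ZMod N)ˣ) : ZMod N).val : ℤ) * p + 1 →
          ∀ (𝔪 : Ideal R) [𝔪.IsMaximal], (p : R) ∈ 𝔪 → ¬ PCurvZeroAt α A 𝔪 := by
        rcases h1 with h1 | h1
        · exact exists_bad α hα A lam phi hlam hphi N hN hNlam hNphi _ h1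
        · exact (final α hα A lam phi hlam hphi N hN hNlam hNphi
            (((u : (ZMod N)ˣ) : ZMod N).val : ℤ)).1 h1
      exact ⟨P₀, fun p hp hpP hap 𝔪 _ hpm _ => hP₀ p hp hpP hap 𝔪 hpm⟩
    rw [Finset.prod_const_one] at hbad
    exact hbad
  intro mu nu N₀ M hlam' hphi' hN₀ hM hcop hlarge hmu hnu a k ha
  -- a unit which is `a` modulo `N₀` and one modulo `M`
  obtain ⟨a₁, ha₁, ha₁d⟩ := crt_units (ι := Bool) (fun b => if b then N₀ else M) (by
    rintro (_ | _) (_ | _) h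
    · exact absurd rfl h
    · exact hcop.symm
    · exact hcop
    · exact absurd rfl h) (fun b => if b then a else 1) (by
    rintro (_ | _)
    · exact isCoprime_one_left
    · exact ha)
  obtain ⟨a', ha', ha'd⟩ := lift_unit (N := ∏ b : Bool, (if b then N₀ else M)) (N' := N) (by
    rw [Fintype.prod_bool]; exact Nat.mul_pos hN₀ hM) hN a₁ ha₁
  rw [Fintype.prod_bool] at ha'd
  simp only [if_true] at ha'd
  have hd1 : (N₀ : ℤ) ∣ a' - a := by
    have h1 : (N₀ : ℤ) ∣ ((N₀ * (if false = true then N₀ else M) : ℕ) : ℤ) :=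
      ⟨((if false = true then N₀ else M : ℕ) : ℤ), by push_cast; ring⟩
    have h2 : a' - a = (a' - a₁) + (a₁ - a) := by ring
    rw [h2]
    exact dvd_add (h1.trans ha'd) (by simpa using ha₁d true)
  have hd2 : (M : ℤ) ∣ a' - 1 := by
    have h1 : (M : ℤ) ∣ ((N₀ * (if false = true then N₀ else M) : ℕ) : ℤ) :=
      ⟨(N₀ : ℤ), by simp; ring⟩
    have h2 : a' - 1 = (a' - a₁) + (a₁ - 1) := by ring
    rw [h2]
    exact dvd_add (h1.trans ha'd) (by simpa using ha₁d false)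
  have hxi : ∀ i, x i = mu i + nu i := by
    rintro (⟨j, l⟩ | l)
    · exact hlam' j l
    · exact hphi' l
  -- the coset of the conjugate
  obtain ⟨C, hCm, hCin⟩ := hcov (fun i => (a' : ℚ) * x i) ⟨0, by
    have : ∑ i, (traceRelation n r i : ℚ) * ((a' : ℚ) * x i) =
        a' * ∑ i, (traceRelation n r i : ℚ) * x i := by
      rw [Finset.mul_sum]
      exact Finset.sum_congr rfl fun i _ => by ring
    rw [this, htr, mul_zero]; simp⟩ ⟨N, hN, fun i => by
      obtain ⟨z, hz⟩ := hNx i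
      exact ⟨a' * z, by rw [mul_left_comm, hz]; push_cast; ring⟩, fun b hb h => by
      have h1 := hnice (b * a') (IsCoprime.mul_left hb ha')
      apply h.2
      have h2 : (fun i => (b : ℝ) * (((a' : ℚ) * x i : ℚ) : ℝ)) =
          fun i => ((b * a' : ℤ) : ℝ) * x i := by
        funext i; push_cast; ring
      rw [h2]
      exact h1⟩
  rw [inCoset_rat] at hCin
  have hlargeB : (B * N₀).Coprime M := by
    refine Nat.Coprime.mul_left ?_ hcop
    rw [Nat.coprime_iff_gcd_eq_one]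
    by_contra hne
    obtain ⟨p, hp, hpd⟩ := Nat.exists_prime_and_dvd hne
    have h1 := hlarge p hp (hpd.trans (Nat.gcd_dvd_right _ _))
    have h2 := Nat.le_of_dvd hB0 (hpd.trans (Nat.gcd_dvd_left _ _))
    omega
  obtain ⟨t, ht⟩ := hd1
  obtain ⟨s, hs⟩ := hd2
  choose c hc using hmu
  choose d hd using hnu
  have h1 : ∀ m ∈ C.1, ∃ z : ℤ, ∑ i, (m i : ℚ) * (a * mu i + nu i - C.2 i) = z := by
    intro m hm
    obtain ⟨z, hz⟩ := hCin m hm
    refine ⟨z - ∑ i, m i * (t * c i + s * d i), ?_⟩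
    push_cast
    rw [← hz, ← Finset.sum_sub_distrib]
    refine Finset.sum_congr rfl fun i _ => ?_
    have e1 : (a' : ℚ) = a + N₀ * t := by
      have := congrArg (fun y : ℤ => (y : ℚ)) ht
      push_cast at this
      linarith
    have e2 : (a' : ℚ) = 1 + M * s := by
      have := congrArg (fun y : ℤ => (y : ℚ)) hs
      push_cast at this
      linarith
    rw [hxi i, ← hc i, ← hd i]
    have e3 : (a' : ℚ) * (mu i + nu i) = (a + N₀ * t) * mu i + (1 + M * s) * nu i := by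
      rw [mul_add, ← e1, ← e2]
    rw [e3]
    ring
  have h2 := coset_split C.1 C.2 B N₀ M (hBi C hCm) hlargeB mu nu (fun i => ⟨c i, hc i⟩)
    (fun i => ⟨d i, hd i⟩) a h1 k
  have h3 : InCoset C.1 C.2 (fun i => (((a : ℚ) * mu i + k * nu i : ℚ) : ℝ)) :=
    inCoset_rat.mpr h2
  have h4 := (hC C hCm _ h3).2
  refine h4.congr (fun j l => ⟨0, ?_⟩) fun l => ⟨0, ?_⟩
  · push_cast; ring
  · push_cast; ring

end Pool.Agent.Helper104.PCD
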