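import Pool.Agent.Helper104.PCD.OnePoint
import Pool.Agent.Helper104.PCD.Sieve
import Pool.Agent.TH571.PCV.UnitsSum

set_option autoImplicit false

/-!
Denominators occurring at two singular points only.
-/

namespace Pool.Agent.Helper104.PCD

open Finset Polynomial Pool.Agent.W432.PC

universe u

/-- The distance of `v` to the integers is less than `t` (for `t ≤ 1 / 2`). -/
def Near (t v : ℚ) : Prop := Int.fract v < t ∨ 1 - t < Int.fract v

lemma near_of_int {t v : ℚ} (ht : 0 < t) (h : ∃ z : ℤ, v = z) : Near t v := by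
  obtain ⟨z, rfl⟩ := h
  left
  rw [Int.fract_intCast]
  exact ht

lemma fract_add_le {t v : ℚ} (ht : 0 < t) (h : ¬ Near t v) :
    Int.fract (v - t) + Int.fract (-v - t) ≤ 1 - 2 * t := by
  unfold Near at h
  push Not at h
  obtain ⟨h1, h2⟩ := h
  have e1 : Int.fract (v - t) = Int.fract v - t := by
    have : v - t = (Int.fract v - t) + (⌊v⌋ : ℤ) := by rw [Int.fract]; ring
    rw [this, Int.fract_add_intCast]
    exact Int.fract_eq_self.mpr ⟨by linarith, by linarith [Int.fract_lt_one v]⟩
  have e2 : Int.fract (-v - t) = 1 - Int.fract v - t := by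
    have : -v - t = (1 - Int.fract v - t) + ((-⌊v⌋ - 1 : ℤ) : ℚ) := by
      rw [Int.fract]; push_cast; ring
    rw [this, Int.fract_add_intCast]
    exact Int.fract_eq_self.mpr ⟨by linarith, by linarith⟩
  rw [e1, e2]
  linarith

lemma fract_add_le' {t v : ℚ} (ht : 0 < t) (ht2 : 2 * t ≤ 1) :
    Int.fract (v - t) + Int.fract (-v - t) ≤ 2 - 2 * t := by
  have h0 := Int.fract_nonneg v
  have h1 := Int.fract_lt_one v
  rcases lt_or_ge (Int.fract v) t with h | h
  · have e1 : Int.fract (v - t) = Int.fract v - t + 1 := by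
      have : v - t = (Int.fract v - t + 1) + ((⌊v⌋ - 1 : ℤ) : ℚ) := by
        rw [Int.fract]; push_cast; ring
      rw [this, Int.fract_add_intCast]
      exact Int.fract_eq_self.mpr ⟨by linarith, by linarith⟩
    rcases lt_or_ge 0 (Int.fract v) with h' | h'
    · have e2 : Int.fract (-v - t) = 1 - Int.fract v - t := by
        have : -v - t = (1 - Int.fract v - t) + ((-⌊v⌋ - 1 : ℤ) : ℚ) := by
          rw [Int.fract]; push_cast; ring
        rw [this, Int.fract_add_intCast]
        exact Int.fract_eq_self.mpr ⟨by linarith, by linarith⟩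
      rw [e1, e2]; linarith
    · have e2 : Int.fract (-v - t) = 1 - Int.fract v - t := by
        have : -v - t = (1 - Int.fract v - t) + ((-⌊v⌋ - 1 : ℤ) : ℚ) := by
          rw [Int.fract]; push_cast; ring
        rw [this, Int.fract_add_intCast]
        exact Int.fract_eq_self.mpr ⟨by linarith, by linarith⟩
      rw [e1, e2]; linarith
  · have e1 : Int.fract (v - t) = Int.fract v - t := by
      have : v - t = (Int.fract v - t) + (⌊v⌋ : ℤ) := by rw [Int.fract]; ring
      rw [this, Int.fract_add_intCast]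
      exact Int.fract_eq_self.mpr ⟨by linarith, by linarith⟩
    have h2 := Int.fract_lt_one (-v - t)
    rcases le_or_gt (Int.fract v + t) 1 with h' | h'
    · have e2 : Int.fract (-v - t) = 1 - Int.fract v - t := by
        have : -v - t = (1 - Int.fract v - t) + ((-⌊v⌋ - 1 : ℤ) : ℚ) := by
          rw [Int.fract]; push_cast; ring
        rw [this, Int.fract_add_intCast]
        exact Int.fract_eq_self.mpr ⟨by linarith, by linarith⟩
      rw [e1, e2]; linarith
    · have e2 : Int.fract (-v - t) = 2 - Int.fract v - t := by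
        have : -v - t = (2 - Int.fract v - t) + ((-⌊v⌋ - 2 : ℤ) : ℚ) := by
          rw [Int.fract]; push_cast; ring
        rw [this, Int.fract_add_intCast]
        exact Int.fract_eq_self.mpr ⟨by linarith, by linarith⟩
      rw [e1, e2]; linarith

open scoped Classical in
/-- The number of units which move `δ` near zero. -/
lemma card_units_near {N₀ : ℕ} [NeZero N₀] {δ : ℚ} (hδ : δ.den ∣ N₀) {t : ℚ} :
    δ.den.totient * (univ.filter fun v : (ZMod N₀)ˣ =>
      Near t (((v : ZMod N₀).val : ℚ) * δ)).card ≤ N₀.totient * (near δ.den t).card := by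
  classical
  set n := δ.den with hn
  have hn0 : 0 < n := δ.den_pos
  have : NeZero n := ⟨hn0.ne'⟩
  have hnq : (0 : ℚ) < n := by exact_mod_cast hn0
  have hcop : IsUnit ((δ.num : ℤ) : ZMod n) := by
    rw [ZMod.coe_int_isUnit_iff_isCoprime, Int.isCoprime_iff_gcd_eq_one, Int.gcd_comm]
    exact δ.reduced
  set w : (ZMod n)ˣ := hcop.unit with hw
  have hwv : (w : ZMod n) = ((δ.num : ℤ) : ZMod n) := rfl
  let g' : ℕ → ℤ := fun b => if (b : ℚ) < t * n ∨ (n : ℚ) - b < t * n then 1 else 0
  let g : (ZMod n)ˣ → ℤ := fun v => g' ((v * w : (ZMod n)ˣ) : ZMod n).val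
  have h1 := Pool.Agent.TH571.PCV.sum_fiber (ZMod.unitsMap hδ) (ZMod.unitsMap_surjective hδ) g
  rw [ZMod.card_units_eq_totient, ZMod.card_units_eq_totient] at h1
  have h2 : ∑ v, g v = ((near n t).card : ℤ) := by
    have h3 : ∑ v, g v = ∑ v : (ZMod n)ˣ, g' (v : ZMod n).val :=
      Equiv.sum_comp (Equiv.mulRight w) (fun v : (ZMod n)ˣ => g' (v : ZMod n).val)
    rw [h3, Pool.Agent.TH571.PCV.sum_units_val, near, ← filter_filter, card_filter]
    push_cast
    rfl
  have h4 : ∀ v : (ZMod N₀)ˣ, Near t (((v : ZMod N₀).val : ℚ) * δ) ↔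
      g (ZMod.unitsMap hδ v) = 1 := by
    intro v
    set b : ℕ := ((ZMod.unitsMap hδ v * w : (ZMod n)ˣ) : ZMod n).val with hb
    have h5 : ((b : ℤ) : ZMod n) = (((v : ZMod N₀).val * δ.num : ℤ) : ZMod n) := by
      rw [hb]
      push_cast
      rw [ZMod.natCast_zmod_val, hwv, ZMod.unitsMap_val]
      congr 1
      rw [ZMod.natCast_val]
    rw [ZMod.intCast_eq_intCast_iff, Int.modEq_iff_dvd] at h5
    obtain ⟨k, hk⟩ := h5
    have h6 : ((v : ZMod N₀).val : ℚ) * δ = (b : ℚ) / n + k := by
      have h7 : (((v : ZMod N₀).val : ℚ) * δ.num - b) = n * k := by exact_mod_cast hk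
      have h8 : δ = δ.num / n := (Rat.num_div_den δ).symm
      have h9 : ((v : ZMod N₀).val : ℚ) * δ = ((v : ZMod N₀).val * δ.num) / n := by
        conv_lhs => rw [h8]
        ring
      rw [h9, eq_div_of_mul_eq hnq.ne' (by rw [add_mul, div_mul_cancel₀ _ hnq.ne'] : (((b : ℚ) / n + k) * n = b + k * n))]
      congr 1
      linarith
    have h7 : Int.fract (((v : ZMod N₀).val : ℚ) * δ) = (b : ℚ) / n := by
      rw [h6, Int.fract_add_intCast]
      refine Int.fract_eq_self.mpr ⟨by positivity, ?_⟩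
      rw [div_lt_one hnq]
      exact_mod_cast ZMod.val_lt _
    have h8 : g (ZMod.unitsMap hδ v) = g' b := rfl
    rw [h8]
    simp only [g']
    unfold Near
    rw [h7]
    have e1 : (b : ℚ) / n < t ↔ (b : ℚ) < t * n := div_lt_iff₀ hnq
    have e2 : 1 - t < (b : ℚ) / n ↔ (n : ℚ) - b < t * n := by
      rw [lt_div_iff₀ hnq]
      constructor <;> intro h <;> linarith
    rw [e1, e2]
    split_ifs with h
    · simp [h]
    · simp [h]
  have h5 : ∑ v, g (ZMod.unitsMap hδ v) = ((univ.filter fun v : (ZMod N₀)ˣ =>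
      Near t (((v : ZMod N₀).val : ℚ) * δ)).card : ℤ) := by
    rw [card_filter]
    push_cast
    refine sum_congr rfl fun v _ => ?_
    have h6 := h4 v
    by_cases h : Near t (((v : ZMod N₀).val : ℚ) * δ)
    · rw [if_pos h, h6.mp h]
    · rw [if_neg h]
      have h7 : g (ZMod.unitsMap hδ v) ≠ 1 := fun h' => h (h6.mpr h')
      simp only [g, g'] at h7 ⊢
      split_ifs at h7 ⊢ <;> simp_all
  rw [h2, h5] at h1
  have h6 : δ.den.totient * (univ.filter fun v : (ZMod N₀)ˣ =>
      Near t (((v : ZMod N₀).val : ℚ) * δ)).card = N₀.totient * (near n t).card := by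
    exact_mod_cast h1
  exact h6.le

/-- Two functions whose fibers have comparable sizes. -/
lemma exists_perm {r : ℕ} {B : Type*} [DecidableEq B] (f g : Fin r → B)
    (h : ∀ l, (univ.filter fun l' => f l' = f l).card ≤ (univ.filter fun l' => g l' = f l).card) :
    ∃ σ : Equiv.Perm (Fin r), ∀ l, g (σ l) = f l := by
  classical
  have h1 : ∀ b : B, Nonempty ({l // f l = b} ↪ {l // g l = b}) := by
    intro b
    refine Function.Embedding.nonempty_of_card_le ?_
    rw [Fintype.card_subtype, Fintype.card_subtype]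
    by_cases hb : ∃ l, f l = b
    · obtain ⟨l, rfl⟩ := hb
      exact h l
    · push Not at hb
      have : (univ.filter fun l => f l = b) = ∅ := by
        ext l; simp [hb l]
      rw [this, card_empty]
      exact Nat.zero_le _
  let E : ∀ b : B, {l // f l = b} ↪ {l // g l = b} := fun b => Classical.choice (h1 b)
  let Φ : Fin r ↪ Fin r := (Equiv.sigmaFiberEquiv f).symm.toEmbedding.trans
    ((Function.Embedding.sigmaMap (Function.Embedding.refl B) E).trans
      (Equiv.sigmaFiberEquiv g).toEmbedding)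
  have hΦ : ∀ l, g (Φ l) = f l := by
    intro l
    exact (E (f l) ⟨l, rfl⟩).2
  refine ⟨Equiv.ofBijective Φ ((Finite.injective_iff_bijective).mp Φ.injective), hΦ⟩

lemma den_dvd {N : ℕ} (hN : 0 < N) {x : ℚ} (h : ∃ z : ℤ, (N : ℚ) * x = z) : x.den ∣ N := by
  obtain ⟨z, hz⟩ := h
  have hNq : (0 : ℚ) < N := by exact_mod_cast hN
  have h1 : x = (z : ℚ) / (N : ℤ) := by push_cast; rw [← hz]; field_simp
  have := Rat.den_dvd z (N : ℤ)
  rw [Rat.divInt_eq_div, ← h1] at this
  exact_mod_cast this

/-- Denominators prime to the others and occurring at two singular points only. -/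
theorem two_points {R : Type u} [CommRing R] [IsDomain R] [CharZero R] {n r : ℕ} (α : Fin n → R)
    (hα : ∀ i j, i ≠ j → IsUnit (α i - α j)) (A : Fin n → Matrix (Fin r) (Fin r) R)
    (lam : Fin (n + 1) → Fin r → ℚ) (hlam : ∀ j : Fin n, HasExponents (A j) (lam j.castSucc))
    (hinf : HasExponents (∑ j, A j) (fun l => -lam (Fin.last n) l)) {ι : Type*} [Fintype ι]
    {c : Fin (n + 1) → ℚ} {mu : Fin (n + 1) → Fin r → ℚ} {nu : ι → Fin (n + 1) → Fin r → ℚ}
    {N₀ : ℕ} {M q : ι → ℕ} {S : ι → Finset (Fin (n + 1))} {T : ι → Finset ℚ}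
    {e : ι → Fin (n + 1) × Fin r} (H : Parts ι lam c mu nu N₀ M q S T e)
    (i₀ i₁ : Fin (n + 1)) (h01 : i₀ ≠ i₁)
    (hmu : ∀ i, i ≠ i₀ → i ≠ i₁ → ∀ l, ∃ z : ℤ, mu i l = z)
    (t : ℚ) (ht : 0 < t) (ht2 : 2 * t ≤ 1) (hsum : ∑ k, ((S k).card : ℚ) / q k ≤ t)
    (hsp : ∀ l l', (¬ ∃ z : ℤ, mu i₀ l + mu i₁ l' = z) →
      r * (near (mu i₀ l + mu i₁ l').den t).card < (mu i₀ l + mu i₁ l').den.totient)
    (N : ℕ) (hN : 0 < N) (hNlam : ∀ i l, ∃ z : ℤ, (N : ℚ) * lam i l = z) :
    (∃ σ : Equiv.Perm (Fin r), ∀ l, ∃ z : ℤ, mu i₀ l + mu i₁ (σ l) = z) ∨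
      ∃ a : ℤ, IsCoprime a (N : ℤ) ∧ Bad α A N a := by
  classical
  by_contra hcon
  push Not at hcon
  obtain ⟨hnoσ, hno⟩ := hcon
  have hN₀ := H.hN₀
  have : NeZero N₀ := ⟨hN₀.ne'⟩
  -- the inequality at the two points
  have ineq : ∀ (a₀ : ℤ), IsCoprime a₀ (N₀ : ℤ) → ∀ x : ℚ, (r : ℚ) ≤
      ∑ l, (x + Int.fract (a₀ * mu i₀ l - x)) +
        ∑ l, ((t - x) + Int.fract (a₀ * mu i₁ l - (t - x))) := by
    intro a₀ ha₀ x
    have hkap : ∑ i, (if i = i₀ then x else if i = i₁ then t - x else 0) = t := by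
      rw [← add_sum_erase univ _ (mem_univ i₀), if_pos rfl,
        ← add_sum_erase (univ.erase i₀) _ (mem_erase.mpr ⟨h01.symm, mem_univ i₁⟩),
        if_neg h01.symm, if_pos rfl, sum_eq_zero]
      · ring
      · intro i hi
        rw [mem_erase, mem_erase] at hi
        rw [if_neg hi.2.1, if_neg hi.1]
    have key := general α hα A lam hlam hinf H N hN hNlam (fun a ha => hno a ha) a₀ ha₀
      (fun i l => if i = i₀ then x + Int.fract (a₀ * mu i₀ l - x) else
        if i = i₁ then (t - x) + Int.fract (a₀ * mu i₁ l - (t - x)) else 0) (fun i l => by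
        by_cases hi : i = i₀
        · subst hi
          rw [if_pos rfl]
          exact ⟨⌊(a₀ : ℚ) * mu i l - x⌋, by rw [Int.fract]; ring⟩
        · rw [if_neg hi]
          by_cases hi' : i = i₁
          · subst hi'
            rw [if_pos rfl]
            exact ⟨⌊(a₀ : ℚ) * mu i l - (t - x)⌋, by rw [Int.fract]; ring⟩
          · rw [if_neg hi']
            obtain ⟨z, hz⟩ := hmu i hi hi' l
            exact ⟨a₀ * z, by rw [hz]; push_cast; ring⟩)
      (fun i => if i = i₀ then x else if i = i₁ then t - x else 0) (fun i l => by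
        by_cases hi : i = i₀
        · simp only [if_pos hi]
          linarith [Int.fract_nonneg ((a₀ : ℚ) * mu i₀ l - x)]
        · simp only [if_neg hi]
          by_cases hi' : i = i₁
          · simp only [if_pos hi']
            linarith [Int.fract_nonneg ((a₀ : ℚ) * mu i₁ l - (t - x))]
          · simp only [if_neg hi', le_refl]) (by rw [hkap]; exact ht) (by rw [hkap]; exact hsum)
    refine key.trans (le_of_eq ?_)
    rw [← add_sum_erase univ _ (mem_univ i₀)]
    simp only [if_true]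
    rw [← add_sum_erase (univ.erase i₀) _ (mem_erase.mpr ⟨h01.symm, mem_univ i₁⟩)]
    simp only [if_neg h01.symm, if_true]
    rw [sum_eq_zero (s := (univ.erase i₀).erase i₁), add_zero]
    intro i hi
    rw [mem_erase, mem_erase] at hi
    simp only [if_neg hi.2.1, if_neg hi.1, sum_const_zero]
  -- the number of the second parts near the opposite of a first part
  have key : ∀ (l₁ : Fin r) (a₀ : ℤ), IsCoprime a₀ (N₀ : ℤ) →
      (univ.filter fun l => Int.fract (mu i₀ l) = Int.fract (mu i₀ l₁)).card ≤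
        (univ.filter fun l => Near t (a₀ * (mu i₀ l₁ + mu i₁ l))).card := by
    intro l₁ a₀ ha₀
    set x : ℚ := a₀ * mu i₀ l₁ with hx
    have h1 := ineq a₀ ha₀ x
    have h2 := ineq (-a₀) ha₀.neg_left (-x)
    have h3 : ∑ l, (Int.fract ((a₀ : ℚ) * mu i₀ l - x) +
        Int.fract (((-a₀ : ℤ) : ℚ) * mu i₀ l - -x)) ≤
        r - (univ.filter fun l => Int.fract (mu i₀ l) = Int.fract (mu i₀ l₁)).card := by
      have h4 : ∀ l, Int.fract ((a₀ : ℚ) * mu i₀ l - x) +
          Int.fract (((-a₀ : ℤ) : ℚ) * mu i₀ l - -x) ≤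
          1 - if Int.fract (mu i₀ l) = Int.fract (mu i₀ l₁) then 1 else 0 := by
        intro l
        have h5 : (((-a₀ : ℤ) : ℚ) * mu i₀ l - -x) = -((a₀ : ℚ) * mu i₀ l - x) := by
          push_cast; ring
        rw [h5]
        split_ifs with h
        · have h6 : Int.fract ((a₀ : ℚ) * mu i₀ l - x) = 0 := by
            rw [Int.fract_eq_iff]
            refine ⟨le_rfl, one_pos, a₀ * (⌊mu i₀ l⌋ - ⌊mu i₀ l₁⌋), ?_⟩
            rw [hx]
            have h7 : mu i₀ l - ⌊mu i₀ l⌋ = mu i₀ l₁ - ⌊mu i₀ l₁⌋ := h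
            push_cast
            linear_combination (a₀ : ℚ) * h7
          rw [h6, Int.fract_neg_eq_zero.mpr h6]
          norm_num
        · by_cases h6 : Int.fract ((a₀ : ℚ) * mu i₀ l - x) = 0
          · rw [h6, Int.fract_neg_eq_zero.mpr h6]; norm_num
          · rw [Int.fract_neg h6]; linarith
      refine (sum_le_sum fun l _ => h4 l).trans (le_of_eq ?_)
      rw [sum_sub_distrib, card_filter]
      push_cast
      simp
    have h4 : ∑ l, (Int.fract ((a₀ : ℚ) * mu i₁ l - (t - x)) +
        Int.fract (((-a₀ : ℤ) : ℚ) * mu i₁ l - (t - -x))) ≤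
        r * (1 - 2 * t) + (univ.filter fun l => Near t (a₀ * (mu i₀ l₁ + mu i₁ l))).card := by
      have h5 : ∀ l, Int.fract ((a₀ : ℚ) * mu i₁ l - (t - x)) +
          Int.fract (((-a₀ : ℤ) : ℚ) * mu i₁ l - (t - -x)) ≤
          (1 - 2 * t) + if Near t (a₀ * (mu i₀ l₁ + mu i₁ l)) then 1 else 0 := by
        intro l
        have e1 : (a₀ : ℚ) * mu i₁ l - (t - x) = a₀ * (mu i₀ l₁ + mu i₁ l) - t := by
          rw [hx]; ring
        have e2 : ((-a₀ : ℤ) : ℚ) * mu i₁ l - (t - -x) = -(a₀ * (mu i₀ l₁ + mu i₁ l)) - t := by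
          rw [hx]; push_cast; ring
        rw [e1, e2]
        split_ifs with h
        · have := fract_add_le' (v := a₀ * (mu i₀ l₁ + mu i₁ l)) ht ht2
          linarith
        · have := fract_add_le ht h
          linarith
      refine (sum_le_sum fun l _ => h5 l).trans (le_of_eq ?_)
      rw [sum_add_distrib, card_filter]
      push_cast
      simp only [sum_const, card_univ, Fintype.card_fin, nsmul_eq_mul]
    simp only [sum_add_distrib, sum_const, card_univ, Fintype.card_fin, nsmul_eq_mul] at h1 h2 h3 h4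
    have h6 : ((univ.filter fun l => Int.fract (mu i₀ l) = Int.fract (mu i₀ l₁)).card : ℚ) ≤
        (univ.filter fun l => Near t (a₀ * (mu i₀ l₁ + mu i₁ l))).card := by
      linarith
    exact_mod_cast h6
  -- the fibers
  have hfib : ∀ l₁ : Fin r,
      (univ.filter fun l => Int.fract (mu i₀ l) = Int.fract (mu i₀ l₁)).card ≤
        (univ.filter fun l => Int.fract (-mu i₁ l) = Int.fract (mu i₀ l₁)).card := by
    intro l₁
    by_contra hlt
    push Not at hlt
    have hr : 0 < r := by
      rcases Nat.eq_zero_or_pos r with rfl | h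
      · exact l₁.elim0
      · exact h
    set L : Finset (Fin r) := univ.filter fun l => ¬ ∃ z : ℤ, mu i₀ l₁ + mu i₁ l = z with hL
    let Bs : Fin r → Finset (ZMod N₀)ˣ := fun l => univ.filter fun v : (ZMod N₀)ˣ =>
      Near t (((v : ZMod N₀).val : ℚ) * (mu i₀ l₁ + mu i₁ l))
    have hcov : (univ : Finset (ZMod N₀)ˣ) ⊆ L.biUnion Bs := by
      intro v _
      have hv : IsCoprime ((v : ZMod N₀).val : ℤ) (N₀ : ℤ) :=
        Nat.isCoprime_iff_coprime.mpr (ZMod.val_coe_unit_coprime v)
      have h1 := (hlt.trans_le (key l₁ _ hv))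
      obtain ⟨l, hl1, hl2⟩ := exists_mem_notMem_of_card_lt_card h1
      rw [mem_filter] at hl1 hl2
      rw [mem_biUnion]
      refine ⟨l, ?_, ?_⟩
      · rw [hL, mem_filter]
        refine ⟨mem_univ _, ?_⟩
        rintro ⟨z, hz⟩
        apply hl2
        refine ⟨mem_univ _, ?_⟩
        rw [Int.fract_eq_fract]
        exact ⟨-z, by push_cast; linarith⟩
      · rw [mem_filter]
        refine ⟨mem_univ _, ?_⟩
        have := hl1.2
        push_cast at this
        exact this
    have hφ : 0 < N₀.totient := Nat.totient_pos.mpr hN₀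
    have hBs : ∀ l ∈ L, r * (Bs l).card < N₀.totient := by
      intro l hl
      rw [hL, mem_filter] at hl
      have h1 := hsp l₁ l hl.2
      have hden : (mu i₀ l₁ + mu i₁ l).den ∣ N₀ := by
        refine den_dvd hN₀ ?_
        obtain ⟨z, hz⟩ := H.hmu i₀ l₁
        obtain ⟨z', hz'⟩ := H.hmu i₁ l
        exact ⟨z + z', by push_cast; rw [mul_add, hz, hz']⟩
      have h2 := card_units_near (t := t) hden
      have hφn : 0 < (mu i₀ l₁ + mu i₁ l).den.totient := Nat.totient_pos.mpr (Rat.den_pos _)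
      have h3 : (mu i₀ l₁ + mu i₁ l).den.totient * (r * (Bs l).card) <
          (mu i₀ l₁ + mu i₁ l).den.totient * N₀.totient := by
        calc (mu i₀ l₁ + mu i₁ l).den.totient * (r * (Bs l).card) =
            r * ((mu i₀ l₁ + mu i₁ l).den.totient * (Bs l).card) := by ring
          _ ≤ r * (N₀.totient * (near (mu i₀ l₁ + mu i₁ l).den t).card) := by
              refine Nat.mul_le_mul_left _ ?_
              convert h2
          _ = N₀.totient * (r * (near (mu i₀ l₁ + mu i₁ l).den t).card) := by ring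
          _ < N₀.totient * (mu i₀ l₁ + mu i₁ l).den.totient := Nat.mul_lt_mul_of_pos_left h1 hφ
          _ = _ := mul_comm _ _
      exact lt_of_mul_lt_mul_left h3 (Nat.zero_le _)
    have h1 : N₀.totient ≤ ∑ l ∈ L, (Bs l).card := by
      have h2 := (card_le_card hcov).trans card_biUnion_le
      rwa [card_univ, ZMod.card_units_eq_totient] at h2
    have h2 : r * N₀.totient ≤ ∑ l ∈ L, r * (Bs l).card := by
      rw [← mul_sum]; exact Nat.mul_le_mul_left _ h1
    have hLc : L.card ≤ r := by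
      have := card_le_univ L
      rwa [Fintype.card_fin] at this
    rcases L.eq_empty_or_nonempty with h3 | h3
    · rw [h3, sum_empty] at h2
      have : 0 < r * N₀.totient := Nat.mul_pos hr hφ
      omega
    · have h4 : ∑ l ∈ L, r * (Bs l).card < ∑ l ∈ L, N₀.totient := sum_lt_sum_of_nonempty h3 hBs
      rw [sum_const, smul_eq_mul] at h4
      have h5 : L.card * N₀.totient ≤ r * N₀.totient := Nat.mul_le_mul_right _ hLc
      omega
  obtain ⟨σ, hσ⟩ := exists_perm (fun l => Int.fract (mu i₀ l)) (fun l => Int.fract (-mu i₁ l)) hfib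
  obtain ⟨l, hl⟩ := hnoσ σ
  have h1 := hσ l
  rw [Int.fract_eq_fract] at h1
  obtain ⟨z, hz⟩ := h1
  exact hl (-z) (by push_cast; linarith)

end Pool.Agent.Helper104.PCD
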